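import Pool.Agent.Y909.FV.Defs

open Set Metric Filter Topology

namespace Pool.Agent.Y909.FV

noncomputable section

variable {E : Type*} [NormedAddCommGroup E] [NormedSpace ℂ E]

theorem HolOn.differentiableAt {F : Type*} [NormedAddCommGroup F] [NormedSpace ℂ F] {s : Set ℂ}
    {f : ℂ → F} (h : HolOn s f) {z : ℂ} (hz : z ∈ s) : DifferentiableAt ℂ f z := by
  obtain ⟨U, hU, hs, hd⟩ := h
  exact hd.differentiableAt (hU.mem_nhds (hs hz))

theorem HolOn.analyticAt {F : Type*} [NormedAddCommGroup F] [NormedSpace ℂ F] [CompleteSpace F]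
    {s : Set ℂ}
    {f : ℂ → F} (h : HolOn s f) {z : ℂ} (hz : z ∈ s) : AnalyticAt ℂ f z := by
  obtain ⟨U, hU, hs, hd⟩ := h
  exact hd.analyticAt (hU.mem_nhds (hs hz))

theorem HolOn.continuousOn {F : Type*} [NormedAddCommGroup F] [NormedSpace ℂ F] {s : Set ℂ}
    {f : ℂ → F} (h : HolOn s f) : ContinuousOn f s := by
  obtain ⟨U, hU, hs, hd⟩ := h
  exact hd.continuousOn.mono hs

theorem liouville_glue {F : Type*} [NormedAddCommGroup F] [NormedSpace ℂ F] [CompleteSpace F]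
    {q r : ℂ → F}
    (hq : HolOn (closedBall 0 1) q) (hr : HolOn (closedBall 0 1) r)
    (h : ∀ z : ℂ, ‖z‖ = 1 → q z = r z⁻¹) :
    ∀ z : ℂ, ‖z‖ ≤ 1 → q z = r 0 ∧ r z = r 0 := by
  classical
  set g : ℂ → F := fun z => if ‖z‖ ≤ 1 then q z else r z⁻¹ with hg
  have hinv : ∀ z : ℂ, 1 ≤ ‖z‖ → z⁻¹ ∈ closedBall (0 : ℂ) 1 := by
    intro z hz
    rw [mem_closedBall_zero_iff, norm_inv]
    exact inv_le_one_of_one_le₀ hz
  have hne : ∀ z : ℂ, 1 ≤ ‖z‖ → z ≠ 0 := by
    rintro z hz rfl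
    simp at hz
    linarith
  have hra : ∀ z : ℂ, 1 ≤ ‖z‖ → AnalyticAt ℂ (fun z => r z⁻¹) z := by
    intro z hz
    exact (hr.analyticAt (hinv z hz)).comp (analyticAt_inv (hne z hz))
  have hgd : Differentiable ℂ g := by
    intro z
    rcases lt_trichotomy ‖z‖ 1 with hz | hz | hz
    · have : g =ᶠ[𝓝 z] q := by
        have : ∀ᶠ w in 𝓝 z, ‖w‖ < 1 := continuous_norm.continuousAt.eventually_lt continuousAt_const hz
        filter_upwards [this] with w hw
        simp [hg, hw.le]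
      exact ((hq.differentiableAt (mem_closedBall_zero_iff.2 hz.le)).congr_of_eventuallyEq this)
    · have h1 : ∃ᶠ w in 𝓝[≠] z, w ∈ sphere (0 : ℂ) 1 := by
        rw [← accPt_iff_frequently_nhdsNE]
        have h2 : (sphere (0 : ℂ) 1).Nontrivial := by
          refine ⟨1, by simp, -1, by simp, ?_⟩
          intro h
          have := congrArg Complex.re h
          norm_num at this
        refine IsPreconnected.preperfect_of_nontrivial h2
          (isPreconnected_sphere (by simp) 0 1) z ?_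
        simpa using hz
      have h3 : ∃ᶠ w in 𝓝[≠] z, q w = r w⁻¹ :=
        h1.mono (fun w hw => h w (by simpa using hw))
      have h4 : ∀ᶠ w in 𝓝 z, q w = r w⁻¹ :=
        ((hq.analyticAt (mem_closedBall_zero_iff.2 hz.le)).frequently_eq_iff_eventually_eq
          (hra z hz.ge)).1 h3
      have : g =ᶠ[𝓝 z] q := by
        filter_upwards [h4] with w hw
        by_cases h5 : ‖w‖ ≤ 1
        · simp [hg, h5]
        · simp [hg, h5, hw]
      exact ((hq.differentiableAt (mem_closedBall_zero_iff.2 hz.le)).congr_of_eventuallyEq this)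
    · have : g =ᶠ[𝓝 z] (fun z => r z⁻¹) := by
        have : ∀ᶠ w in 𝓝 z, 1 < ‖w‖ := continuousAt_const.eventually_lt continuous_norm.continuousAt hz
        filter_upwards [this] with w hw
        simp [hg, hw.not_ge]
      exact ((hra z hz.le).differentiableAt.congr_of_eventuallyEq this)
  have hgb : Bornology.IsBounded (range g) := by
    have h1 : Bornology.IsBounded (q '' closedBall 0 1) :=
      ((isCompact_closedBall (0 : ℂ) 1).image_of_continuousOn hq.continuousOn).isBounded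
    have h2 : Bornology.IsBounded (r '' closedBall 0 1) :=
      ((isCompact_closedBall (0 : ℂ) 1).image_of_continuousOn hr.continuousOn).isBounded
    refine (h1.union h2).subset ?_
    rintro _ ⟨z, rfl⟩
    by_cases hz : ‖z‖ ≤ 1
    · left
      refine ⟨z, by simpa using hz, by simp [hg, hz]⟩
    · right
      refine ⟨z⁻¹, hinv z (not_le.1 hz).le, by simp [hg, hz]⟩
  have hconst := hgd.apply_eq_apply_of_bounded hgb
  have hr' : ∀ w : ℂ, ‖w‖ ≤ 1 → w ≠ 0 → r w = g 0 := by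
    intro w hw hw0
    rcases eq_or_lt_of_le hw with h1 | h1
    · have : q w⁻¹ = r w := by
        have := h w⁻¹ (by simp [h1])
        simpa using this
      rw [← this]
      have h2 : g w⁻¹ = q w⁻¹ := by simp [hg, h1]
      rw [← h2]
      exact hconst _ _
    · have h2 : g w⁻¹ = r w := by
        have : ¬ ‖w⁻¹‖ ≤ 1 := by
          rw [norm_inv, not_le]
          exact (one_lt_inv₀ (norm_pos_iff.2 hw0)).2 h1
        simp only [hg, this, if_false, inv_inv]
      rw [← h2]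
      exact hconst _ _
  have hr0 : r 0 = g 0 := by
    have hc : ContinuousAt r 0 := (hr.differentiableAt (by simp)).continuousAt
    have h1 : Tendsto r (𝓝[≠] 0) (𝓝 (r 0)) := hc.tendsto.mono_left nhdsWithin_le_nhds
    have h2 : Tendsto r (𝓝[≠] 0) (𝓝 (g 0)) := by
      refine tendsto_const_nhds.congr' ?_
      have : ∀ᶠ w in 𝓝[≠] (0 : ℂ), ‖w‖ < 1 :=
        (continuous_norm.continuousAt.eventually_lt continuousAt_const (by simp)).filter_mono
          nhdsWithin_le_nhds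
      filter_upwards [this, self_mem_nhdsWithin] with w hw hw0
      exact (hr' w hw.le hw0).symm
    exact tendsto_nhds_unique h1 h2
  intro z hz
  refine ⟨?_, ?_⟩
  · rw [hr0]
    have : g z = q z := by simp [hg, hz]
    rw [← this]
    exact hconst _ _
  · by_cases h0 : z = 0
    · rw [h0]
    · rw [hr0]; exact hr' z hz h0

theorem HolOn.sub {F : Type*} [NormedAddCommGroup F] [NormedSpace ℂ F] {s : Set ℂ}
    {f g : ℂ → F} (hf : HolOn s f) (hg : HolOn s g) : HolOn s (fun z => f z - g z) := by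
  obtain ⟨U, hU, hs, hd⟩ := hf
  obtain ⟨U', hU', hs', hd'⟩ := hg
  exact ⟨U ∩ U', hU.inter hU', subset_inter hs hs',
    (hd.mono inter_subset_left).sub (hd'.mono inter_subset_right)⟩

theorem HolOn.add {F : Type*} [NormedAddCommGroup F] [NormedSpace ℂ F] {s : Set ℂ}
    {f g : ℂ → F} (hf : HolOn s f) (hg : HolOn s g) : HolOn s (fun z => f z + g z) := by
  obtain ⟨U, hU, hs, hd⟩ := hf
  obtain ⟨U', hU', hs', hd'⟩ := hg
  exact ⟨U ∩ U', hU.inter hU', subset_inter hs hs',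
    (hd.mono inter_subset_left).add (hd'.mono inter_subset_right)⟩

theorem HolOn.smul {F : Type*} [NormedAddCommGroup F] [NormedSpace ℂ F] {s : Set ℂ}
    {c : ℂ → ℂ} {f : ℂ → F} (hc : HolOn s c) (hf : HolOn s f) : HolOn s (fun z => c z • f z) := by
  obtain ⟨U, hU, hs, hd⟩ := hf
  obtain ⟨U', hU', hs', hd'⟩ := hc
  exact ⟨U' ∩ U, hU'.inter hU, subset_inter hs' hs,
    (hd'.mono inter_subset_left).smul (hd.mono inter_subset_right)⟩

theorem HolOn.of_differentiable {F : Type*} [NormedAddCommGroup F] [NormedSpace ℂ F] {s : Set ℂ}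
    {f : ℂ → F} (hf : Differentiable ℂ f) : HolOn s f :=
  ⟨univ, isOpen_univ, subset_univ _, hf.differentiableOn⟩

theorem HolOn.clm {F G : Type*} [NormedAddCommGroup F] [NormedSpace ℂ F]
    [NormedAddCommGroup G] [NormedSpace ℂ G] {s : Set ℂ}
    {f : ℂ → F} (L : F →L[ℂ] G) (hf : HolOn s f) : HolOn s (fun z => L (f z)) := by
  obtain ⟨U, hU, hs, hd⟩ := hf
  exact ⟨U, hU, hs, L.differentiable.comp_differentiableOn hd⟩

theorem cancel_z {F : Type*} [NormedAddCommGroup F] [NormedSpace ℂ F]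
    {g k : ℂ → F} (hg : HolOn (closedBall 0 1) g) (hk : HolOn (closedBall 0 1) k)
    (h : ∀ z : ℂ, ‖z‖ ≤ 1 → z • g z = z • k z) : ∀ z : ℂ, ‖z‖ ≤ 1 → g z = k z := by
  have h1 : ∀ z : ℂ, ‖z‖ ≤ 1 → z ≠ 0 → g z = k z := by
    intro z hz h0
    exact smul_right_injective F h0 (h z hz)
  intro z hz
  by_cases h0 : z = 0
  · subst h0
    have hc1 : Tendsto g (𝓝[≠] 0) (𝓝 (g 0)) :=
      (hg.differentiableAt (by simp)).continuousAt.tendsto.mono_left nhdsWithin_le_nhds
    have hc2 : Tendsto k (𝓝[≠] 0) (𝓝 (k 0)) :=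
      (hk.differentiableAt (by simp)).continuousAt.tendsto.mono_left nhdsWithin_le_nhds
    refine tendsto_nhds_unique (hc1.congr' ?_) hc2
    have : ∀ᶠ w in 𝓝[≠] (0 : ℂ), ‖w‖ < 1 :=
      (continuous_norm.continuousAt.eventually_lt continuousAt_const (by simp)).filter_mono
        nhdsWithin_le_nhds
    filter_upwards [this, self_mem_nhdsWithin] with w hw hw0
    exact h1 w hw.le hw0
  · exact h1 z hz h0

theorem HolOn.dslope0 {F : Type*} [NormedAddCommGroup F] [NormedSpace ℂ F] [CompleteSpace F]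
    {f : ℂ → F} (hf : HolOn (closedBall 0 1) f) : HolOn (closedBall 0 1) (dslope f 0) := by
  obtain ⟨U, hU, hs, hd⟩ := hf
  refine ⟨U, hU, hs, ?_⟩
  exact (Complex.differentiableOn_dslope (hU.mem_nhds (hs (by simp)))).2 hd

theorem dslope0_eq {F : Type*} [NormedAddCommGroup F] [NormedSpace ℂ F]
    (f : ℂ → F) (z : ℂ) : f z = f 0 + z • dslope f 0 z := by
  have := sub_smul_dslope f 0 z
  rw [sub_zero] at this
  rw [this]
  abel

theorem equiv_section [CompleteSpace E] {A T Am Ap : ℂ → E →L[ℂ] E}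
    (hm : HolGL (closedBall 0 1) Am) (hp : HolGL (closedBall 0 1) Ap)
    (h : ∀ z : ℂ, ‖z‖ = 1 → A z = Am z⁻¹ ∘L T z ∘L Ap z) {φm φp : ℂ → E}
    (hs : IsSection A 0 φm φp) :
    IsSection T 0 (fun w => Ring.inverse (Am w) (φm w)) (fun z => Ap z (φp z)) := by
  obtain ⟨U, hU, hsU, hdU, hu⟩ := hm
  obtain ⟨W, hW, hsW, hdW, -⟩ := hp
  obtain ⟨⟨U', hU', hsU', hdU'⟩, ⟨W', hW', hsW', hdW'⟩, heq⟩ := hs
  refine ⟨⟨U ∩ U', hU.inter hU', subset_inter hsU hsU', ?_⟩,
    ⟨W ∩ W', hW.inter hW', subset_inter hsW hsW', ?_⟩, ?_⟩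
  · intro w hw
    have h1 : DifferentiableWithinAt ℂ (fun w => Ring.inverse (Am w)) (U ∩ U') w := by
      have h2 : DifferentiableAt ℂ (Ring.inverse : (E →L[ℂ] E) → (E →L[ℂ] E)) (Am w) :=
        differentiableAt_inverse (hu w hw.1)
      exact h2.comp_differentiableWithinAt w ((hdU.mono inter_subset_left) w hw)
    exact h1.clm_apply ((hdU'.mono inter_subset_right) w hw)
  · exact (hdW.mono inter_subset_left).clm_apply (hdW'.mono inter_subset_right)
  · intro z hz
    have h1 := heq z hz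
    have h2 : z⁻¹ ∈ closedBall (0 : ℂ) 1 := by simp [hz]
    have h3 : Ring.inverse (Am z⁻¹) * Am z⁻¹ = 1 := Ring.inverse_mul_cancel _ (hu _ (hsU h2))
    rw [zpow_zero, one_smul] at h1 ⊢
    change Ring.inverse (Am z⁻¹) (φm z⁻¹) = T z (Ap z (φp z))
    rw [h1, h z hz]
    have h4 := congrArg (fun L : E →L[ℂ] E => L (T z (Ap z (φp z)))) h3
    exact h4

omit [NormedAddCommGroup E] [NormedSpace ℂ E] in
theorem sectionValue_or (z : OnePoint ℂ) :
    (∃ a : ℂ, ‖a‖ ≤ 1 ∧ ∀ φm φp : ℂ → E, sectionValue φm φp z = φp a) ∨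
    (∃ w : ℂ, ‖w‖ ≤ 1 ∧ ∀ φm φp : ℂ → E, sectionValue φm φp z = φm w) := by
  induction z using OnePoint.rec with
  | infty => exact Or.inr ⟨0, by simp, fun _ _ => rfl⟩
  | coe a =>
    by_cases h : ‖a‖ ≤ 1
    · refine Or.inl ⟨a, h, fun φm φp => ?_⟩
      simp [sectionValue, h]
    · refine Or.inr ⟨a⁻¹, ?_, fun φm φp => ?_⟩
      · rw [norm_inv]
        exact inv_le_one_of_one_le₀ (not_le.1 h).le
      · simp [sectionValue, h]

theorem hasIndices_of {A : ℂ → E →L[ℂ] E} {S : Submodule ℂ E}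
    (h1 : ∀ (x : E) (z : OnePoint ℂ), x ≠ 0 → ∀ κ ∈ kappaSet A x z, 0 ≤ κ)
    (h2 : ∀ (x : E) (z : OnePoint ℂ), (1 : ℤ) ∈ kappaSet A x z)
    (h3 : ∀ (x : E) (z : OnePoint ℂ), (0 : ℤ) ∈ kappaSet A x z ↔ x ∈ S)
    (h4 : ¬ FiniteDimensional ℂ S) (h5 : ¬ FiniteDimensional ℂ (E ⧸ S)) :
    HasIndicesZeroOne A := by
  have g0 : ∀ (x : E) (z : OnePoint ℂ), x ≠ 0 → x ∈ S → IsLeast (kappaSet A x z) 0 :=
    fun x z hx hS => ⟨(h3 x z).2 hS, fun κ hκ => h1 x z hx κ hκ⟩
  have g1 : ∀ (x : E) (z : OnePoint ℂ), x ≠ 0 → x ∉ S → IsLeast (kappaSet A x z) 1 := by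
    intro x z hx hS
    refine ⟨h2 x z, fun κ hκ => ?_⟩
    have i1 := h1 x z hx κ hκ
    have i2 : κ ≠ 0 := by
      rintro rfl
      exact hS ((h3 x z).1 hκ)
    omega
  intro z
  refine ⟨?_, ?_, S, ⊤, ?_, ?_, h4, ?_⟩
  · intro x hx
    by_cases hS : x ∈ S
    · exact ⟨0, g0 x z hx hS⟩
    · exact ⟨1, g1 x z hx hS⟩
  · ext k
    simp only [mem_ofPred_eq, mem_insert_iff, mem_singleton_iff]
    constructor
    · rintro ⟨x, hx, hk⟩
      by_cases hS : x ∈ S
      · exact Or.inl (hk.unique (g0 x z hx hS))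
      · exact Or.inr (hk.unique (g1 x z hx hS))
    · rintro (rfl | rfl)
      · have : S ≠ ⊥ := by
          rintro rfl
          exact h4 inferInstance
        obtain ⟨x, hx, hx0⟩ := S.ne_bot_iff.1 this
        exact ⟨x, hx0, g0 x z hx0 hx⟩
      · have : ∃ x, x ∉ S := by
          by_contra hcon
          push Not at hcon
          have : S = ⊤ := by
            ext x; simp [hcon x]
          subst this
          exact h5 inferInstance
        obtain ⟨x, hx⟩ := this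
        have hx0 : x ≠ 0 := by
          rintro rfl
          exact hx S.zero_mem
        exact ⟨x, hx0, g1 x z hx0 hx⟩
  · ext x
    simp only [MSet, mem_ofPred_eq, SetLike.mem_coe]
    constructor
    · intro hx
      by_cases hx0 : x = 0
      · exact Or.inl hx0
      · exact Or.inr ⟨0, le_rfl, g0 x z hx0 hx⟩
    · rintro (rfl | ⟨j, hj, hl⟩)
      · exact S.zero_mem
      · by_contra hx
        have hx0 : x ≠ 0 := by
          rintro rfl
          exact hx S.zero_mem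
        have := hl.unique (g1 x z hx0 hx)
        omega
  · ext x
    simp only [MSet, mem_ofPred_eq, SetLike.mem_coe, Submodule.mem_top, true_iff]
    by_cases hx0 : x = 0
    · exact Or.inl hx0
    · right
      by_cases hS : x ∈ S
      · exact ⟨0, by norm_num, g0 x z hx0 hS⟩
      · exact ⟨1, le_rfl, g1 x z hx0 hS⟩
  · intro hfd
    apply h5
    let L : E →ₗ[ℂ] ((⊤ : Submodule ℂ E) ⧸ S.submoduleOf ⊤) :=
      (S.submoduleOf ⊤).mkQ ∘ₗ (LinearMap.codRestrict ⊤ LinearMap.id (fun _ => trivial))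
    have hker : LinearMap.ker L = S := by
      ext x
      rw [LinearMap.mem_ker]
      change (Submodule.Quotient.mk (⟨x, trivial⟩ : (⊤ : Submodule ℂ E)) :
        (⊤ : Submodule ℂ E) ⧸ S.submoduleOf ⊤) = 0 ↔ x ∈ S
      rw [Submodule.Quotient.mk_eq_zero]
      rfl
    have hinj : Function.Injective (S.liftQ L hker.ge) := by
      rw [← LinearMap.ker_eq_bot]
      exact Submodule.ker_liftQ_eq_bot _ _ _ hker.le
    exact Module.Finite.of_injective _ hinj

section circle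

variable {F : Type*} [NormedAddCommGroup F] [NormedSpace ℂ F]

/-- the maximum principle at the origin -/
theorem HolOn.norm_le {g : ℂ → F} (hg : HolOn (closedBall 0 1) g) {δ : ℝ}
    (h : ∀ z : ℂ, ‖z‖ = 1 → ‖g z‖ ≤ δ) : ‖g 0‖ ≤ δ := by
  have hd : DiffContOnCl ℂ g (ball 0 1) := by
    refine ⟨fun z hz => (hg.differentiableAt (ball_subset_closedBall hz)).differentiableWithinAt, ?_⟩
    rw [closure_ball _ one_ne_zero]
    exact hg.continuousOn
  refine Complex.norm_le_of_forall_mem_frontier_norm_le isBounded_ball hd (fun z hz => ?_)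
    (subset_closure (mem_ball_self one_pos))
  rw [frontier_ball _ one_ne_zero] at hz
  exact h z (by simpa using hz)

theorem ne_zero_of_norm_one {z : ℂ} (hz : ‖z‖ = 1) : z ≠ 0 := by
  rintro rfl
  simp at hz

theorem hol_id {s : Set ℂ} : HolOn s (fun z : ℂ => z) := HolOn.of_differentiable differentiable_id

theorem hol_const {s : Set ℂ} (a : F) : HolOn s (fun _ : ℂ => a) :=
  HolOn.of_differentiable (differentiable_const _)

theorem hol_pow {s : Set ℂ} (n : ℕ) : HolOn s (fun z : ℂ => z ^ n) :=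
  HolOn.of_differentiable (by fun_prop)

/-- If `q` has degree `< n` and `zⁿ p - q` is small on the circle, then `p` is small there. -/
theorem chain_small [CompleteSpace F] (n : ℕ) : ∀ {δ : ℝ} {p q r : ℂ → F},
    HolOn (closedBall 0 1) p → HolOn (closedBall 0 1) q → HolOn (closedBall 0 1) r →
    (∀ z : ℂ, ‖z‖ = 1 → z • q z = z ^ n • r z⁻¹) →
    (∀ z : ℂ, ‖z‖ = 1 → ‖z ^ n • p z - q z‖ ≤ δ) →
    ∀ z : ℂ, ‖z‖ = 1 → ‖p z‖ ≤ 2 ^ n * δ := by
  induction n with
  | zero =>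
    intro δ p q r hp hq hr h1 h2 z hz
    have k := liouville_glue (q := fun z => z • q z) (r := r) (hol_id.smul hq) hr (by
      intro z hz
      have := h1 z hz
      rw [pow_zero, one_smul] at this
      exact this)
    have k1 := (k 0 (by simp)).1
    simp only [zero_smul] at k1
    have k2 := (k z hz.le).1
    rw [← k1] at k2
    have k3 : q z = 0 := (smul_eq_zero.1 k2).resolve_left (ne_zero_of_norm_one hz)
    have := h2 z hz
    rw [k3, pow_zero, one_smul, sub_zero] at this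
    simpa using this
  | succ n ih =>
    intro δ p q r hp hq hr h1 h2 z hz
    have hg : HolOn (closedBall 0 1) (fun z => z ^ (n + 1) • p z - q z) :=
      (HolOn.smul (hol_pow _) hp).sub hq
    have hq0 : ‖q 0‖ ≤ δ := by
      have := hg.norm_le h2
      simpa using this
    have hq1 : ∀ z : ℂ, z • dslope q 0 z = q z - q 0 := by
      intro z
      have := dslope0_eq q z
      rw [this]
      simp
    have key := ih (δ := 2 * δ) (p := p) (q := dslope q 0) (r := fun w => r w - w ^ n • q 0) hp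
      hq.dslope0 (hr.sub (HolOn.smul (hol_pow _) (hol_const _))) (by
        intro z hz
        have hz0 := ne_zero_of_norm_one hz
        have e1 : z • (z • dslope q 0 z) = z • (z ^ n • (r z⁻¹ - z⁻¹ ^ n • q 0)) := by
          rw [hq1 z, smul_sub, h1 z hz, smul_sub (z ^ n), smul_sub z, smul_smul z (z ^ n),
            ← pow_succ', smul_smul (z ^ n), ← mul_pow, mul_inv_cancel₀ hz0, one_pow, one_smul]
        exact smul_right_injective F hz0 e1) (by
        intro z hz
        have e2 : z • (z ^ n • p z - dslope q 0 z) = (z ^ (n + 1) • p z - q z) + q 0 := by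
          rw [smul_sub, hq1 z, smul_smul, ← pow_succ']
          abel
        have e3 : ‖z • (z ^ n • p z - dslope q 0 z)‖ ≤ δ + δ := by
          rw [e2]
          exact norm_add_le_of_le (h2 z hz) hq0
        rw [norm_smul, hz, one_mul] at e3
        linarith) z hz
    rw [pow_succ]
    linarith

theorem norm_circleAverage_le {f : ℂ → F} {δ : ℝ} (h : ∀ z : ℂ, ‖z‖ = 1 → ‖f z‖ ≤ δ) :
    ‖Real.circleAverage f 0 1‖ ≤ δ := by
  rw [Real.circleAverage_def, norm_smul]
  have h1 : ‖∫ θ in (0 : ℝ)..2 * Real.pi, f (circleMap 0 1 θ)‖ ≤ δ * |2 * Real.pi - 0| := by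
    refine intervalIntegral.norm_integral_le_of_norm_le_const ?_
    intro x _
    exact h _ (by simp)
  have h2 : 0 < 2 * Real.pi := by positivity
  rw [sub_zero, abs_of_pos h2] at h1
  rw [Real.norm_of_nonneg (by positivity)]
  calc (2 * Real.pi)⁻¹ * ‖∫ θ in (0 : ℝ)..2 * Real.pi, f (circleMap 0 1 θ)‖
      ≤ (2 * Real.pi)⁻¹ * (δ * (2 * Real.pi)) :=
        mul_le_mul_of_nonneg_left h1 (by positivity)
    _ = δ := by field_simp

theorem HolOn.circleAverage_eq [CompleteSpace F] {g : ℂ → F} (hg : HolOn (closedBall 0 1) g) :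
    Real.circleAverage g 0 1 = g 0 := by
  refine DiffContOnCl.circleAverage ?_
  rw [abs_one]
  refine ⟨fun z hz => (hg.differentiableAt (ball_subset_closedBall hz)).differentiableWithinAt, ?_⟩
  rw [closure_ball _ one_ne_zero]
  exact hg.continuousOn

/-- If `z u(z) - v(1/z)` is small on the circle, then `u(0)` is small. -/
theorem mean_small [CompleteSpace F] {u v : ℂ → F} {δ : ℝ} (hu : HolOn (closedBall 0 1) u)
    (hv : HolOn (closedBall 0 1) v) (h : ∀ z : ℂ, ‖z‖ = 1 → ‖z • u z - v z⁻¹‖ ≤ δ) :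
    ‖u 0‖ ≤ δ := by
  have hw : HolOn (closedBall 0 1) (fun w : ℂ => w • v w) := hol_id.smul hv
  have hc : ContinuousOn (fun z : ℂ => (fun w : ℂ => w • v w) z⁻¹) (sphere (0 : ℂ) 1) := by
    refine hw.continuousOn.comp ?_ ?_
    · refine continuousOn_inv₀.mono ?_
      intro z hz
      exact ne_zero_of_norm_one (by simpa using hz)
    · intro z hz
      have : ‖z‖ = 1 := by simpa using hz
      simp [this]
  have h1 : Real.circleAverage (fun z => u z - (fun w : ℂ => w • v w) z⁻¹) 0 1 = u 0 := by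
    rw [Real.circleAverage_fun_sub
      ((hu.continuousOn.mono sphere_subset_closedBall).circleIntegrable (by norm_num))
      (hc.circleIntegrable (by norm_num))]
    rw [Real.circleAverage_zero_one_congr_inv (f := fun w : ℂ => w • v w), hu.circleAverage_eq,
      hw.circleAverage_eq]
    simp
  rw [← h1]
  refine norm_circleAverage_le ?_
  intro z hz
  have hz0 := ne_zero_of_norm_one hz
  have h2 : u z - z⁻¹ • v z⁻¹ = z⁻¹ • (z • u z - v z⁻¹) := by
    rw [smul_sub, smul_smul, inv_mul_cancel₀ hz0, one_smul]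
  change ‖u z - z⁻¹ • v z⁻¹‖ ≤ δ
  rw [h2, norm_smul, norm_inv, hz, inv_one, one_mul]
  exact h z hz

end circle

theorem HolOn.clm_apply {F G : Type*} [NormedAddCommGroup F] [NormedSpace ℂ F]
    [NormedAddCommGroup G] [NormedSpace ℂ G] {s : Set ℂ} {L : ℂ → F →L[ℂ] G}
    {f : ℂ → F} (hL : HolOn s L) (hf : HolOn s f) : HolOn s (fun z => L z (f z)) := by
  obtain ⟨U, hU, hs, hd⟩ := hf
  obtain ⟨U', hU', hs', hd'⟩ := hL
  exact ⟨U' ∩ U, hU'.inter hU, subset_inter hs' hs,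
    (hd'.mono inter_subset_left).clm_apply (hd.mono inter_subset_right)⟩

section block

variable [CompleteSpace E] (d : Dec E)

instance : CompleteSpace d.H₁ := d.closed₁.completeSpace_coe

instance : CompleteSpace d.H₂ := d.closed₂.completeSpace_coe

theorem Dec.P₁_left (x : d.H₁) : d.P₁ (x : E) = x := Submodule.projectionOntoL_apply_left _ x

theorem Dec.P₁_right (x : d.H₂) : d.P₁ (x : E) = 0 := Submodule.projectionOntoL_apply_right _ x

theorem Dec.P₂_left (x : d.H₁) : d.P₂ (x : E) = 0 := Submodule.projectionOntoL_apply_right _ x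

theorem Dec.P₂_right (x : d.H₂) : d.P₂ (x : E) = x := Submodule.projectionOntoL_apply_left _ x

theorem Dec.add_eq (x : E) : ((d.P₁ x : d.H₁) : E) + ((d.P₂ x : d.H₂) : E) = x := by
  have : x ∈ d.H₁ ⊔ d.H₂ := by rw [d.compl.sup_eq_top]; trivial
  obtain ⟨y, hy, w, hw, rfl⟩ := Submodule.mem_sup.1 this
  have i1 : d.P₁ y = ⟨y, hy⟩ := d.P₁_left ⟨y, hy⟩
  have i2 : d.P₁ w = 0 := d.P₁_right ⟨w, hw⟩
  have i3 : d.P₂ w = ⟨w, hw⟩ := d.P₂_right ⟨w, hw⟩
  have i4 : d.P₂ y = 0 := d.P₂_left ⟨y, hy⟩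
  rw [map_add, map_add, i1, i2, i3, i4, add_zero, zero_add]

theorem block_apply (D : d.H₁ →L[ℂ] d.H₁) (V : d.H₁ →L[ℂ] d.H₂) (z : ℂ) (x : E) :
    block d D V z x =
      ((D (d.P₁ x) : d.H₁) : E) + ((V (d.P₁ x) : d.H₂) : E) + z • ((d.P₂ x : d.H₂) : E) := rfl

theorem P₁_block (D : d.H₁ →L[ℂ] d.H₁) (V : d.H₁ →L[ℂ] d.H₂) (z : ℂ) (x : E) :
    d.P₁ (block d D V z x) = D (d.P₁ x) := by
  rw [block_apply, map_add, map_add, map_smul, d.P₁_left, d.P₁_right, d.P₁_right, smul_zero,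
    add_zero, add_zero]

theorem P₂_block (D : d.H₁ →L[ℂ] d.H₁) (V : d.H₁ →L[ℂ] d.H₂) (z : ℂ) (x : E) :
    d.P₂ (block d D V z x) = V (d.P₁ x) + z • d.P₂ x := by
  rw [block_apply, map_add, map_add, map_smul, d.P₂_left, d.P₂_right, d.P₂_right, zero_add]

theorem section_eq {D : ℂ → d.H₁ →L[ℂ] d.H₁} {V : ℂ → d.H₁ →L[ℂ] d.H₂} {κ : ℤ} {φm φp : ℂ → E}
    (hs : IsSection (fun z => block d (D z) (V z) z) κ φm φp) {z : ℂ} (hz : ‖z‖ = 1) :
    z ^ κ • d.P₁ (φm z⁻¹) = D z (d.P₁ (φp z)) ∧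
      z ^ κ • d.P₂ (φm z⁻¹) = V z (d.P₁ (φp z)) + z • d.P₂ (φp z) := by
  have h := hs.2.2 z hz
  have h1 := congrArg d.P₁ h
  have h2 := congrArg d.P₂ h
  rw [map_smul, P₁_block] at h1
  rw [map_smul, P₂_block] at h2
  exact ⟨h1, h2⟩

theorem not_equivalent_block {A : ℂ → E →L[ℂ] E} {c : ℝ} (hc : 0 < c) {n : ℕ}
    (hA : ∀ η : ℝ, 0 < η → ∃ φm φp φm' φp' : ℂ → E, IsSection A 0 φm φp ∧
      IsSection A 0 φm' φp' ∧ (∀ z : ℂ, ‖z‖ = 1 → ‖z ^ n • φp z - φp' z‖ ≤ η) ∧ c ≤ ‖φp 0‖)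
    (D B : ℂ → d.H₁ →L[ℂ] d.H₁) (V : ℂ → d.H₁ →L[ℂ] d.H₂) (hV : ContinuousOn V (sphere 0 1))
    (hB : HolOn (closedBall 0 1) B)
    (hDB : ∀ z : ℂ, ‖z‖ = 1 → ∀ x : d.H₁, z ^ n • B z⁻¹ (D z x) = z • x) :
    ¬ Equivalent A (fun z => block d (D z) (V z) z) := by
  rintro ⟨Am, Ap, hm, hp, heq⟩
  obtain ⟨C, hC⟩ : ∃ C, ∀ z ∈ sphere (0 : ℂ) 1, ‖Ap z‖ ≤ C := by
    obtain ⟨W, hW, hsW, hdW, -⟩ := hp
    exact (isCompact_sphere (0 : ℂ) 1).exists_bound_of_continuousOn
      (hdW.continuousOn.mono (sphere_subset_closedBall.trans hsW))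
  have hC0 : 0 ≤ C := (norm_nonneg _).trans (hC 1 (by simp))
  obtain ⟨CV, hCV⟩ := (isCompact_sphere (0 : ℂ) 1).exists_bound_of_continuousOn (f := V) hV
  have hCV0 : 0 ≤ CV := (norm_nonneg _).trans (hCV 1 (by simp))
  have hu0 : Ring.inverse (Ap 0) * Ap 0 = 1 := by
    obtain ⟨W, hW, hsW, hdW, hu⟩ := hp
    exact Ring.inverse_mul_cancel _ (hu _ (hsW (by simp)))
  set K : ℝ := ‖Ring.inverse (Ap 0)‖ * ((1 + CV) * (2 ^ n * (‖d.P₁‖ * C))) with hK
  have hK0 : 0 ≤ K := by positivity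
  obtain ⟨φm, φp, φm', φp', hsec, hsec', hsmall, hbig⟩ := hA (c / (2 * (K + 1))) (by positivity)
  set η := c / (2 * (K + 1)) with hη
  have hη0 : 0 < η := by positivity
  have s1 := equiv_section hm hp heq hsec
  have s2 := equiv_section hm hp heq hsec'
  set ψm : ℂ → E := fun w => Ring.inverse (Am w) (φm w) with hψm
  set ψm' : ℂ → E := fun w => Ring.inverse (Am w) (φm' w) with hψm'
  have t1 : ∀ z : ℂ, ‖z‖ = 1 → ‖z ^ n • d.P₁ (Ap z (φp z)) - d.P₁ (Ap z (φp' z))‖ ≤
      ‖d.P₁‖ * C * η := by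
    intro z hz
    have i1 : z ^ n • d.P₁ (Ap z (φp z)) - d.P₁ (Ap z (φp' z)) =
        d.P₁ (Ap z (z ^ n • φp z - φp' z)) := by
      rw [map_sub, map_smul, map_sub, map_smul]
    rw [i1]
    calc ‖d.P₁ (Ap z (z ^ n • φp z - φp' z))‖ ≤ ‖d.P₁‖ * ‖Ap z (z ^ n • φp z - φp' z)‖ :=
          d.P₁.le_opNorm _
      _ ≤ ‖d.P₁‖ * (C * η) := by
          refine mul_le_mul_of_nonneg_left ?_ d.P₁.opNorm_nonneg
          exact ((Ap z).le_opNorm _).trans
            (mul_le_mul (hC z (by simpa using hz)) (hsmall z hz) (norm_nonneg _) hC0)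
      _ = ‖d.P₁‖ * C * η := by ring
  have t2 := chain_small n (p := fun z => d.P₁ (Ap z (φp z))) (q := fun z => d.P₁ (Ap z (φp' z)))
    (r := fun w => B w (d.P₁ (ψm' w))) (s1.2.1.clm d.P₁) (s2.2.1.clm d.P₁)
    (hB.clm_apply (s2.1.clm d.P₁)) (by
      intro z hz
      have i1 := (section_eq d s2 hz).1
      rw [zpow_zero, one_smul] at i1
      rw [i1, hDB z hz]) t1
  set δ : ℝ := 2 ^ n * (‖d.P₁‖ * C * η) with hδ
  have hδ0 : 0 ≤ δ := by positivity
  have t3 : ‖d.P₁ (Ap 0 (φp 0))‖ ≤ δ := (s1.2.1.clm d.P₁).norm_le t2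
  have t4 : ‖d.P₂ (Ap 0 (φp 0))‖ ≤ CV * δ := by
    refine mean_small (u := fun z => d.P₂ (Ap z (φp z))) (v := fun w => d.P₂ (ψm w))
      (s1.2.1.clm d.P₂) (s1.1.clm d.P₂) ?_
    intro z hz
    have i1 := (section_eq d s1 hz).2
    rw [zpow_zero, one_smul] at i1
    have i2 : z • d.P₂ (Ap z (φp z)) - d.P₂ (ψm z⁻¹) = - V z (d.P₁ (Ap z (φp z))) := by
      rw [i1]; abel
    rw [i2, norm_neg]
    exact ((V z).le_opNorm _).trans
      (mul_le_mul (hCV z (by simpa using hz)) (t2 z hz) (norm_nonneg _) hCV0)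
  have t5 : ‖Ap 0 (φp 0)‖ ≤ (1 + CV) * δ := by
    have t3' : ‖((d.P₁ (Ap 0 (φp 0)) : d.H₁) : E)‖ ≤ δ := t3
    have t4' : ‖((d.P₂ (Ap 0 (φp 0)) : d.H₂) : E)‖ ≤ CV * δ := t4
    rw [← d.add_eq (Ap 0 (φp 0))]
    refine (norm_add_le_of_le t3' t4').trans ?_
    linarith
  have t6 : φp 0 = Ring.inverse (Ap 0) (Ap 0 (φp 0)) := by
    have h4 := congrArg (fun L : E →L[ℂ] E => L (φp 0)) hu0
    exact h4.symm
  have t7 : ‖φp 0‖ ≤ K * η := by
    rw [t6]
    calc _ ≤ ‖Ring.inverse (Ap 0)‖ * ‖Ap 0 (φp 0)‖ := ContinuousLinearMap.le_opNorm _ _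
      _ ≤ ‖Ring.inverse (Ap 0)‖ * ((1 + CV) * δ) :=
          mul_le_mul_of_nonneg_left t5 (norm_nonneg _)
      _ = K * η := by rw [hK, hδ]; ring
  have t8 : K * η < c := by
    rw [hη, mul_div_assoc', div_lt_iff₀ (by positivity)]
    nlinarith
  linarith

end block

section expansions

variable {F : Type*} [NormedAddCommGroup F] [NormedSpace ℂ F]

/-- iterated difference quotients at the origin -/
def dI (f : ℂ → F) : ℕ → ℂ → F
  | 0 => f
  | j + 1 => dslope (dI f j) 0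

/-- `Rr x j w = xⱼ + w xⱼ₋₁ + ⋯ + wʲ x₀` -/
def Rr (x : ℕ → F) : ℕ → ℂ → F
  | 0, _ => x 0
  | j + 1, w => x (j + 1) + w • Rr x j w

/-- `Ss x n j z = xⱼ + z xⱼ₊₁ + ⋯ + zⁿ⁻ʲ xₙ` -/
def Ss (x : ℕ → F) (n j : ℕ) (z : ℂ) : F := ∑ i ∈ Finset.range (n + 1 - j), z ^ i • x (j + i)

theorem dI_hol [CompleteSpace F] {f : ℂ → F} (hf : HolOn (closedBall 0 1) f) (j : ℕ) :
    HolOn (closedBall 0 1) (dI f j) := by
  induction j with
  | zero => exact hf
  | succ j ih => exact ih.dslope0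

theorem Rr_diff (x : ℕ → F) (j : ℕ) : Differentiable ℂ (Rr x j) := by
  induction j with
  | zero => exact differentiable_const _
  | succ j ih =>
    change Differentiable ℂ (fun w => x (j + 1) + w • Rr x j w)
    exact (differentiable_const _).add (differentiable_id.smul ih)

theorem Ss_diff (x : ℕ → F) (n j : ℕ) : Differentiable ℂ (Ss x n j) := by
  unfold Ss
  fun_prop

theorem Rr_zero (x : ℕ → F) (j : ℕ) : Rr x j 0 = x j := by
  cases j with
  | zero => rfl
  | succ j => simp [Rr]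

theorem dI_split (f : ℂ → F) (j : ℕ) {z : ℂ} (hz : z ≠ 0) :
    z⁻¹ ^ j • f z = z • dI f (j + 1) z + Rr (fun i => dI f i 0) j z⁻¹ := by
  induction j with
  | zero =>
    rw [pow_zero, one_smul]
    change f z = z • dslope f 0 z + f 0
    rw [add_comm]
    exact dslope0_eq f z
  | succ j ih =>
    rw [pow_succ', mul_smul, ih, smul_add, smul_smul, inv_mul_cancel₀ hz, one_smul,
      dslope0_eq (dI f (j + 1)) z]
    change _ = z • dslope (dI f (j + 1)) 0 z + (dI f (j + 1) 0 + z⁻¹ • Rr _ j z⁻¹)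
    abel

theorem dI_factor (f : ℂ → F) (n : ℕ) (h : ∀ j < n, dI f j 0 = 0) (z : ℂ) :
    f z = z ^ n • dI f n z := by
  induction n with
  | zero => rw [pow_zero, one_smul]; rfl
  | succ n ih =>
    rw [ih (fun j hj => h j (by omega)), dslope0_eq (dI f n) z, h n (by omega), zero_add,
      smul_smul, ← pow_succ]
    rfl

theorem Ss_step (x : ℕ → F) {n j : ℕ} (hj : j ≤ n) (z : ℂ) :
    Ss x n j z = x j + z • Ss x n (j + 1) z := by
  unfold Ss
  have h1 : n + 1 - j = (n - j) + 1 := by omega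
  have h2 : n + 1 - (j + 1) = n - j := by omega
  rw [h1, h2, Finset.sum_range_succ', pow_zero, one_smul, add_zero, add_comm, Finset.smul_sum]
  congr 1
  refine Finset.sum_congr rfl (fun i _ => ?_)
  rw [smul_smul, ← pow_succ']
  congr 2
  omega

theorem Ss_end (x : ℕ → F) (n : ℕ) (z : ℂ) : Ss x n (n + 1) z = 0 := by
  simp [Ss]

theorem Ss_split (x : ℕ → F) (n : ℕ) : ∀ j ≤ n, ∀ {z : ℂ}, z ≠ 0 →
    z⁻¹ ^ j • Ss x n 0 z = z • Ss x n (j + 1) z + Rr x j z⁻¹ := by
  intro j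
  induction j with
  | zero =>
    intro _ z hz
    rw [pow_zero, one_smul, Ss_step x (Nat.zero_le n), add_comm]
    rfl
  | succ j ih =>
    intro hj z hz
    rw [pow_succ', mul_smul, ih (by omega) hz, smul_add, smul_smul, inv_mul_cancel₀ hz, one_smul,
      Ss_step x hj]
    change _ = z • Ss x n (j + 1 + 1) z + (x (j + 1) + z⁻¹ • Rr x j z⁻¹)
    abel

/-- prescribing the values of the `Ss` at a point -/
theorem Ss_values (c : ℕ → F) (n : ℕ) (hc : c (n + 1) = 0) (a : ℂ) {j : ℕ} (hj : j ≤ n + 1) :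
    Ss (fun i => c i - a • c (i + 1)) n j a = c j := by
  unfold Ss
  have h1 : ∀ i ∈ Finset.range (n + 1 - j),
      a ^ i • (c (j + i) - a • c (j + i + 1)) =
        (fun i => a ^ i • c (j + i)) i - (fun i => a ^ i • c (j + i)) (i + 1) := by
    intro i _
    simp only
    rw [smul_sub, smul_smul, ← pow_succ]
    rfl
  rw [Finset.sum_congr rfl h1, Finset.sum_range_sub']
  have h2 : j + (n + 1 - j) = n + 1 := by omega
  simp [h2, hc]

/-- prescribing the values of the `Rr` at a point -/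
theorem Rr_values (c : ℕ → F) (a : ℂ) (j : ℕ) :
    Rr (fun i => Nat.casesOn i (c 0) (fun m => c (m + 1) - a • c m)) j a = c j := by
  induction j with
  | zero => rfl
  | succ j ih =>
    change (c (j + 1) - a • c j) + a • Rr _ j a = c (j + 1)
    rw [ih]
    abel

end expansions

end

end Pool.Agent.Y909.FV
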