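import Mathlib

/-!
# Operator functions on the circle: definitions

Sections, equivalence and the numbers `κ(x, z, A)` for operator functions on the unit circle, and
the block functions `[z⁻ᵏ, 0; V(z), z]`.
-/

open Set Metric Filter Topology

namespace Pool.Agent.Y909.FV

noncomputable section

variable {E : Type*} [NormedAddCommGroup E] [NormedSpace ℂ E]

/-- `f` is holomorphic on a neighbourhood of the set `s`. (A function holomorphic on
`T₋ = {1 ≤ |z| ≤ ∞}` is always written in the coordinate `w = 1/z`, as a function `f` with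
`HolOn (closedBall 0 1) f`: its value at `z ≠ ∞` is `f z⁻¹` and its value at `∞` is `f 0`.) -/
def HolOn {F : Type*} [NormedAddCommGroup F] [NormedSpace ℂ F] (s : Set ℂ) (f : ℂ → F) : Prop :=
  ∃ U : Set ℂ, IsOpen U ∧ s ⊆ U ∧ DifferentiableOn ℂ f U

/-- `A` is a `GL(E)`-valued holomorphic function on a neighbourhood of the set `s`. -/
def HolGL (s : Set ℂ) (A : ℂ → E →L[ℂ] E) : Prop :=
  ∃ U : Set ℂ, IsOpen U ∧ s ⊆ U ∧ DifferentiableOn ℂ A U ∧ ∀ z ∈ U, IsUnit (A z)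

/-- `S` and `T` are equivalent: `S = A₋ T A₊` on the unit circle, with `A₊` holomorphic and
invertible near `|z| ≤ 1` and `A₋(z) = Am (1/z)` holomorphic and invertible near `1 ≤ |z| ≤ ∞`. -/
def Equivalent (S T : ℂ → E →L[ℂ] E) : Prop :=
  ∃ Am Ap : ℂ → E →L[ℂ] E, HolGL (closedBall 0 1) Am ∧ HolGL (closedBall 0 1) Ap ∧
    ∀ z : ℂ, ‖z‖ = 1 → S z = Am z⁻¹ ∘L T z ∘L Ap z

/-- `(φm, φp)` is a `κ`-section of `A`: `z^κ φ₋(z) = A(z) φ₊(z)` on the unit circle, where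
`φ₊ = φp` is holomorphic near `|z| ≤ 1` and `φ₋(z) = φm (1/z)` is holomorphic near
`1 ≤ |z| ≤ ∞`. -/
def IsSection (A : ℂ → E →L[ℂ] E) (κ : ℤ) (φm φp : ℂ → E) : Prop :=
  HolOn (closedBall 0 1) φm ∧ HolOn (closedBall 0 1) φp ∧
    ∀ z : ℂ, ‖z‖ = 1 → z ^ κ • φm z⁻¹ = A z (φp z)

/-- The value `φ(z)` of a section at a point `z` of the Riemann sphere: `φ₊(z)` for `|z| ≤ 1`
and `φ₋(z)` for `1 < |z| ≤ ∞`. -/
def sectionValue (φm φp : ℂ → E) (z : OnePoint ℂ) : E :=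
  z.elim (φm 0) (fun a => if ‖a‖ ≤ 1 then φp a else φm a⁻¹)

/-- The set of all `κ` such that some `κ`-section of `A` takes the value `x` at `z`; its least
element is `κ(x, z, A)`. -/
def kappaSet (A : ℂ → E →L[ℂ] E) (x : E) (z : OnePoint ℂ) : Set ℤ :=
  {κ | ∃ φm φp : ℂ → E, IsSection A κ φm φp ∧ sectionValue φm φp z = x}

/-- `{0} ∪ {x ≠ 0 : κ(x, z, A) ≤ k}`. -/
def MSet (A : ℂ → E →L[ℂ] E) (k : ℤ) (z : OnePoint ℂ) : Set E :=
  {x | x = 0 ∨ ∃ j ≤ k, IsLeast (kappaSet A x z) j}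

/-- The indices of `A` are exactly `0` and `1`, both with infinite dimension: at every point `z`
of the Riemann sphere, `κ(x, z, A)` exists for each `x ≠ 0`, its values are exactly `0` and `1`,
and `M₁(z)` and `M₂(z) / M₁(z)` are infinite-dimensional. -/
def HasIndicesZeroOne (A : ℂ → E →L[ℂ] E) : Prop :=
  ∀ z : OnePoint ℂ,
    (∀ x : E, x ≠ 0 → ∃ k, IsLeast (kappaSet A x z) k) ∧
    {k : ℤ | ∃ x : E, x ≠ 0 ∧ IsLeast (kappaSet A x z) k} = {0, 1} ∧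
    ∃ M₁ M₂ : Submodule ℂ E, (M₁ : Set E) = MSet A 0 z ∧ (M₂ : Set E) = MSet A 1 z ∧
      ¬ FiniteDimensional ℂ M₁ ∧ ¬ FiniteDimensional ℂ (M₂ ⧸ M₁.submoduleOf M₂)

/-- A decomposition `E = H₁ ⊕ H₂` into closed subspaces. -/
structure Dec (E : Type*) [NormedAddCommGroup E] [NormedSpace ℂ E] where
  /-- the first summand -/
  H₁ : Submodule ℂ E
  /-- the second summand -/
  H₂ : Submodule ℂ E
  /-- the first summand is closed -/
  closed₁ : IsClosed (H₁ : Set E)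
  /-- the second summand is closed -/
  closed₂ : IsClosed (H₂ : Set E)
  /-- `E` is the direct sum of the two -/
  compl : IsCompl H₁ H₂

/-- The projection `E → H₁` of the decomposition `E = H₁ ⊕ H₂`. -/
def Dec.P₁ [CompleteSpace E] (d : Dec E) : E →L[ℂ] d.H₁ :=
  d.H₁.projectionOntoL d.H₂ (Submodule.IsCompl.isTopCompl_of_isClosed d.compl d.closed₁ d.closed₂)

/-- The projection `E → H₂` of the decomposition `E = H₁ ⊕ H₂`. -/
def Dec.P₂ [CompleteSpace E] (d : Dec E) : E →L[ℂ] d.H₂ :=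
  d.H₂.projectionOntoL d.H₁
    (Submodule.IsCompl.isTopCompl_of_isClosed d.compl.symm d.closed₂ d.closed₁)

/-- The operator `[D, 0; V, z]` with respect to `E = H₁ ⊕ H₂`, where `D ∈ L(H₁)`,
`V ∈ L(H₁, H₂)` and `z` stands for `z` times the identity of `H₂`:
`block d D V z = D P₁ + V P₁ + z P₂`. -/
def block [CompleteSpace E] (d : Dec E) (D : d.H₁ →L[ℂ] d.H₁) (V : d.H₁ →L[ℂ] d.H₂) (z : ℂ) :
    E →L[ℂ] E :=
  d.H₁.subtypeL ∘L D ∘L d.P₁ + d.H₂.subtypeL ∘L V ∘L d.P₁ + z • (d.H₂.subtypeL ∘L d.P₂)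

/-- The function `z ↦ [z⁻ᵏ, 0; V(z), z]` with respect to `E = H₁ ⊕ H₂`. For `k = 1` and constant
`V` this is `F_V`. -/
def G [CompleteSpace E] (d : Dec E) (k : ℤ) (V : ℂ → d.H₁ →L[ℂ] d.H₂) (z : ℂ) : E →L[ℂ] E :=
  block d (z ^ (-k) • ContinuousLinearMap.id ℂ d.H₁) (V z) z

/-- The function `V(z) = W₀ + z⁻¹ W₁ + ⋯ + z⁻⁽ⁿ⁻¹⁾ Wₙ₋₁`. -/
def Vn (d : Dec E) {n : ℕ} (W : Fin n → (d.H₁ →L[ℂ] d.H₂)) (z : ℂ) : d.H₁ →L[ℂ] d.H₂ :=
  ∑ j : Fin n, z⁻¹ ^ (j : ℕ) • W j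

end

end Pool.Agent.Y909.FV
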