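import Pool.Agent.Y909.FV.Model

open Set Metric Filter Topology

namespace Pool.Agent.Y909.FV

noncomputable section

variable {E : Type*} [NormedAddCommGroup E] [NormedSpace ℂ E]

section weighted

/-- the Hilbert space `ℓ²(ℕ)` -/
abbrev K2 : Type := lp (fun _ : ℕ => ℂ) 2

/-- `(k ↦ w(k) x(g(k)) if p(k), else 0)` -/
def wfun (p : ℕ → Prop) [DecidablePred p] (g : ℕ → ℕ) (w : ℕ → ℂ) (x : ℕ → ℂ) (k : ℕ) : ℂ :=
  if p k then w k * x (g k) else 0

theorem wfun_sum_le {p : ℕ → Prop} [DecidablePred p] {g : ℕ → ℕ} {w : ℕ → ℂ}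
    (hg : ∀ a b, p a → p b → g a = g b → a = b) (hw : ∀ k, ‖w k‖ ≤ 1) (x : K2) (s : Finset ℕ) :
    ∑ m ∈ s, ‖wfun p g w x m‖ ^ (2 : ℝ) ≤ ‖x‖ ^ (2 : ℝ) := by
  have h1 : ∑ m ∈ s, ‖wfun p g w x m‖ ^ (2 : ℝ) ≤
      ∑ m ∈ s.filter (fun m => p m), ‖x (g m)‖ ^ (2 : ℝ) := by
    rw [Finset.sum_filter]
    refine Finset.sum_le_sum (fun m _ => ?_)
    by_cases hm : p m
    · simp only [wfun, hm, if_true]
      refine Real.rpow_le_rpow (norm_nonneg _) ?_ (by norm_num)
      rw [norm_mul]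
      exact mul_le_of_le_one_left (norm_nonneg _) (hw m)
    · simp [wfun, hm]
  have h2 : ∑ m ∈ s.filter (fun m => p m), ‖x (g m)‖ ^ (2 : ℝ) =
      ∑ n ∈ (s.filter (fun m => p m)).image g, ‖x n‖ ^ (2 : ℝ) := by
    rw [Finset.sum_image]
    intro a ha b hb hab
    simp only [Finset.coe_filter, mem_ofPred_eq] at ha hb
    exact hg a b ha.2 hb.2 hab
  have h3 := lp.sum_rpow_le_norm_rpow (p := 2) (by norm_num) x
    ((s.filter (fun m => p m)).image g)
  simp only [ENNReal.toReal_ofNat] at h3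
  exact h1.trans (h2.le.trans h3)

theorem wfun_mem {p : ℕ → Prop} [DecidablePred p] {g : ℕ → ℕ} {w : ℕ → ℂ}
    (hg : ∀ a b, p a → p b → g a = g b → a = b) (hw : ∀ k, ‖w k‖ ≤ 1) (x : K2) :
    Memℓp (wfun p g w x) 2 := by
  refine memℓp_gen' (C := ‖x‖ ^ (2 : ℝ)) ?_
  intro s
  simp only [ENNReal.toReal_ofNat]
  exact wfun_sum_le hg hw x s

/-- the operator `x ↦ (k ↦ w(k) x(g(k)) if p(k), else 0)` on `ℓ²(ℕ)` -/
def wop (p : ℕ → Prop) [DecidablePred p] (g : ℕ → ℕ) (w : ℕ → ℂ)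
    (hg : ∀ a b, p a → p b → g a = g b → a = b) (hw : ∀ k, ‖w k‖ ≤ 1) : K2 →L[ℂ] K2 :=
  LinearMap.mkContinuous
    { toFun := fun x => ⟨wfun p g w x, wfun_mem hg hw x⟩
      map_add' := by
        intro x y
        ext m
        by_cases hm : p m
        · simp [wfun, hm, mul_add]
        · simp [wfun, hm]
      map_smul' := by
        intro c x
        ext m
        by_cases hm : p m
        · simp [wfun, hm]; ring
        · simp [wfun, hm] } 1 (by
    intro x
    rw [one_mul]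
    refine lp.norm_le_of_forall_sum_le (p := 2) (by norm_num) (norm_nonneg _) ?_
    intro s
    simp only [ENNReal.toReal_ofNat]
    exact wfun_sum_le hg hw x s)

theorem wop_apply (p : ℕ → Prop) [DecidablePred p] (g : ℕ → ℕ) (w : ℕ → ℂ)
    (hg : ∀ a b, p a → p b → g a = g b → a = b) (hw : ∀ k, ‖w k‖ ≤ 1) (x : K2) (k : ℕ) :
    wop p g w hg hw x k = if p k then w k * x (g k) else 0 := rfl

theorem div_inj_aux (n j : ℕ) : ∀ a b : ℕ, a % n = j → b % n = j → a / n = b / n → a = b := by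
  intro a b ha hb hab
  rw [← Nat.div_add_mod a n, ← Nat.div_add_mod b n, ha, hb, hab]

theorem weight_aux (k : ℕ) : ‖(1 / ((k : ℂ) + 1))‖ ≤ 1 := by
  have : ((k : ℂ) + 1) = ((k + 1 : ℕ) : ℂ) := by push_cast; rfl
  rw [this, norm_div, norm_one, Complex.norm_natCast, div_le_one (by positivity)]
  exact_mod_cast Nat.succ_le_succ (Nat.zero_le k)

/-- `(Tₙⱼ x)(n m + j) = x(m) / (n m + j + 1)`, and the other coordinates vanish -/
def Tn (n j : ℕ) : K2 →L[ℂ] K2 :=
  wop (fun k => k % n = j) (fun k => k / n) (fun k => 1 / ((k : ℂ) + 1)) (div_inj_aux n j)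
    weight_aux

/-- `(Sₙⱼ x)(n m + j) = x(m)`, and the other coordinates vanish -/
def Sn (n j : ℕ) : K2 →L[ℂ] K2 :=
  wop (fun k => k % n = j) (fun k => k / n) (fun _ => 1) (div_inj_aux n j) (by simp)

/-- `(Rₙⱼ x)(m) = x(n m + j)` -/
def Rn (n j : ℕ) (hn : 0 < n) : K2 →L[ℂ] K2 :=
  wop (fun _ => True) (fun m => n * m + j) (fun _ => 1)
    (fun a b _ _ h => Nat.eq_of_mul_eq_mul_left hn (by omega)) (by simp)

theorem Tn_apply (n j : ℕ) (x : K2) (k : ℕ) :
    Tn n j x k = if k % n = j then 1 / ((k : ℂ) + 1) * x (k / n) else 0 := rfl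

theorem Sn_apply (n j : ℕ) (x : K2) (k : ℕ) :
    Sn n j x k = if k % n = j then 1 * x (k / n) else 0 := rfl

theorem Rn_apply (n j : ℕ) (hn : 0 < n) (x : K2) (k : ℕ) :
    Rn n j hn x k = if True then 1 * x (n * k + j) else 0 := rfl

theorem lp_sum_apply {ι : Type*} (s : Finset ι) (f : ι → K2) (k : ℕ) :
    (∑ i ∈ s, f i : K2) k = ∑ i ∈ s, f i k := by
  classical
  induction s using Finset.induction_on with
  | empty => simp
  | insert a s ha ih => rw [Finset.sum_insert ha, Finset.sum_insert ha, ← ih]; rfl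

theorem sum_Tn_apply {n : ℕ} (hn : 0 < n) (x : Fin n → K2) (k : ℕ) :
    (∑ j : Fin n, Tn n j (x j) : K2) k =
      1 / ((k : ℂ) + 1) * x ⟨k % n, Nat.mod_lt _ hn⟩ (k / n) := by
  rw [lp_sum_apply, Finset.sum_eq_single (⟨k % n, Nat.mod_lt _ hn⟩ : Fin n)]
  · rw [Tn_apply, if_pos rfl]
  · intro j _ hj
    rw [Tn_apply, if_neg]
    intro h
    exact hj (Fin.ext h.symm)
  · intro h
    exact absurd (Finset.mem_univ _) h

theorem sum_Tn_inj {n : ℕ} (x : Fin n → K2) (h : ∑ j : Fin n, Tn n j (x j) = 0) : x = 0 := by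
  rcases Nat.eq_zero_or_pos n with hn | hn
  · subst hn
    funext j
    exact j.elim0
  funext j
  ext m
  have h1 := sum_Tn_apply hn x (n * m + j)
  rw [h] at h1
  have h2 : (n * m + (j : ℕ)) % n = j := by
    rw [Nat.mul_add_mod, Nat.mod_eq_of_lt j.2]
  have h3 : (n * m + (j : ℕ)) / n = m := by
    rw [Nat.mul_add_div hn, Nat.div_eq_of_lt j.2, add_zero]
  have h4 : (⟨(n * m + (j : ℕ)) % n, Nat.mod_lt _ hn⟩ : Fin n) = j := Fin.ext h2
  rw [h4, h3] at h1
  have h5 : (((n * m + (j : ℕ) : ℕ) : ℂ) + 1) ≠ 0 := by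
    exact_mod_cast Nat.succ_ne_zero (n * m + (j : ℕ))
  have h6 : (0 : K2) (n * m + (j : ℕ)) = 0 := rfl
  rw [h6] at h1
  have h7 := (mul_eq_zero.1 h1.symm).resolve_left (one_div_ne_zero h5)
  exact h7

/-- the total range does not depend on `n` -/
theorem sum_Tn_range {n : ℕ} (hn : 0 < n) (y : K2) :
    (∃ x : Fin n → K2, ∑ j : Fin n, Tn n j (x j) = y) ↔ ∃ x : K2, Tn 1 0 x = y := by
  constructor
  · rintro ⟨x, rfl⟩
    refine ⟨∑ j : Fin n, Sn n j (x j), ?_⟩
    ext k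
    rw [sum_Tn_apply hn, Tn_apply, if_pos (Nat.mod_one k), lp_sum_apply, Nat.div_one,
      Finset.sum_eq_single (⟨k % n, Nat.mod_lt _ hn⟩ : Fin n)]
    · rw [Sn_apply, if_pos rfl, one_mul]
    · intro j _ hj
      rw [Sn_apply, if_neg]
      intro h
      exact hj (Fin.ext h.symm)
    · intro h
      exact absurd (Finset.mem_univ _) h
  · rintro ⟨x, rfl⟩
    refine ⟨fun j => Rn n j hn x, ?_⟩
    ext k
    rw [sum_Tn_apply hn, Tn_apply, if_pos (Nat.mod_one k), Rn_apply, if_pos trivial, one_mul,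
      Nat.div_one, Nat.div_add_mod]

theorem Tn_single {n j : ℕ} (hj : j < n) (m : ℕ) :
    ‖Tn n j (lp.single 2 m (1 : ℂ))‖ ≤ 1 / ((m : ℝ) + 1) := by
  have hn : 0 < n := by omega
  have h2 : (n * m + j) % n = j := by rw [Nat.mul_add_mod, Nat.mod_eq_of_lt hj]
  have h3 : (n * m + j) / n = m := by rw [Nat.mul_add_div hn, Nat.div_eq_of_lt hj, add_zero]
  have : Tn n j (lp.single 2 m (1 : ℂ)) =
      lp.single 2 (n * m + j) (1 / (((n * m + j : ℕ) : ℂ) + 1)) := by
    ext k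
    rw [Tn_apply]
    by_cases hk : k = n * m + j
    · subst hk
      rw [if_pos h2, h3, lp.single_apply_self, lp.single_apply_self, mul_one]
    · rw [lp.single_apply_ne _ _ _ hk]
      by_cases h4 : k % n = j
      · have h5 : k / n ≠ m := by
          rintro rfl
          apply hk
          rw [← h4, Nat.div_add_mod]
        rw [if_pos h4, lp.single_apply_ne _ _ _ h5, mul_zero]
      · rw [if_neg h4]
  rw [this, lp.norm_single (by norm_num), norm_div, norm_one]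
  have h5 : (((n * m + j : ℕ) : ℂ) + 1) = ((n * m + j + 1 : ℕ) : ℂ) := by push_cast; rfl
  rw [h5, Complex.norm_natCast]
  refine one_div_le_one_div_of_le (by positivity) ?_
  have : m ≤ n * m := Nat.le_mul_of_pos_left m hn
  have h6 : m + 1 ≤ n * m + j + 1 := by omega
  exact_mod_cast h6

theorem not_fd_of_coord {F : Type*} [AddCommGroup F] [Module ℂ F] (L : F →ₗ[ℂ] (ℕ → ℂ))
    (e : ℕ → F) (h : ∀ n, L (e n) = Pi.single n 1) : ¬ FiniteDimensional ℂ F := by
  intro hfd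
  have h1 : LinearIndependent ℂ (fun n : ℕ => (Pi.single n 1 : ℕ → ℂ)) :=
    Pi.linearIndependent_single_one ℕ ℂ
  have h2 : LinearIndependent ℂ e := by
    refine LinearIndependent.of_comp L ?_
    have : (⇑L ∘ e) = fun n : ℕ => (Pi.single n 1 : ℕ → ℂ) := by
      funext n; exact h n
    rw [this]
    exact h1
  exact not_finite_iff_infinite.2 inferInstance (h2.finite)

end weighted

section hilbert

variable {H : Type*} [NormedAddCommGroup H] [InnerProductSpace ℂ H] [CompleteSpace H]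

theorem exists_orthonormal_seq (hH : ¬ FiniteDimensional ℂ H) : ∃ e : ℕ → H, Orthonormal ℂ e := by
  obtain ⟨w, b, hb⟩ := exists_hilbertBasis ℂ H
  have hw : Infinite w := by
    by_contra hfin
    rw [not_infinite_iff_finite] at hfin
    have := Fintype.ofFinite w
    exact hH b.toOrthonormalBasis.toBasis.finiteDimensional_of_finite
  exact ⟨fun n => b (Infinite.natEmbedding w n), b.orthonormal.comp _ (Infinite.natEmbedding w).injective⟩

/-- the isometry `ℓ²(ℕ) → H` with `eₘ ↦ e(σ(m))` -/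
def Us {e : ℕ → H} (he : Orthonormal ℂ e) {σ : ℕ → ℕ} (hσ : Function.Injective σ) : K2 →ₗᵢ[ℂ] H :=
  (he.comp σ hσ).orthogonalFamily.linearIsometry

theorem Us_hasSum {e : ℕ → H} (he : Orthonormal ℂ e) {σ : ℕ → ℕ} (hσ : Function.Injective σ)
    (x : K2) : HasSum (fun i => x i • e (σ i)) (Us he hσ x) :=
  (he.comp σ hσ).orthogonalFamily.hasSum_linearIsometry x

theorem Us_inner_ne {e : ℕ → H} (he : Orthonormal ℂ e) {σ : ℕ → ℕ} (hσ : Function.Injective σ)
    (x : K2) {k : ℕ} (hk : ∀ i, σ i ≠ k) : inner ℂ (e k) (Us he hσ x) = 0 := by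
  have h1 := (Us_hasSum he hσ x).mapL (innerSL ℂ (e k))
  have h2 : (fun i => innerSL ℂ (e k) (x i • e (σ i))) = fun _ => (0 : ℂ) := by
    funext i
    rw [innerSL_apply_apply, inner_smul_right, he.2 (hk i).symm, mul_zero]
  rw [h2] at h1
  exact h1.unique hasSum_zero

theorem Us_inner_Us {e : ℕ → H} (he : Orthonormal ℂ e) {σ τ : ℕ → ℕ} (hσ : Function.Injective σ)
    (hτ : Function.Injective τ) (hd : ∀ i j, σ i ≠ τ j) (x y : K2) :
    inner ℂ (Us he hσ x) (Us he hτ y) = 0 := by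
  have h1 := (Us_hasSum he hτ y).mapL (innerSL ℂ (Us he hσ x))
  have h2 : (fun i => innerSL ℂ (Us he hσ x) (y i • e (τ i))) = fun _ => (0 : ℂ) := by
    funext i
    rw [innerSL_apply_apply, inner_smul_right, ← inner_conj_symm,
      Us_inner_ne he hσ x (fun j => hd j i), map_zero, mul_zero]
  rw [h2] at h1
  exact h1.unique hasSum_zero

end hilbert

theorem HolGL.inverse [CompleteSpace E] {s : Set ℂ} {A : ℂ → E →L[ℂ] E} (h : HolGL s A) :
    HolGL s (fun z => Ring.inverse (A z)) := by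
  obtain ⟨U, hU, hs, hd, hu⟩ := h
  refine ⟨U, hU, hs, ?_, fun z hz => ?_⟩
  · intro z hz
    exact (differentiableAt_inverse (hu z hz)).comp_differentiableWithinAt z (hd z hz)
  · exact (hu z hz).ringInverse

theorem Equivalent.symm [CompleteSpace E] {S T : ℂ → E →L[ℂ] E} (h : Equivalent S T) :
    Equivalent T S := by
  obtain ⟨Am, Ap, hm, hp, heq⟩ := h
  refine ⟨_, _, hm.inverse, hp.inverse, fun z hz => ?_⟩
  have h1 : Ring.inverse (Am z⁻¹) * Am z⁻¹ = 1 := by
    obtain ⟨U, hU, hs, hd, hu⟩ := hm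
    exact Ring.inverse_mul_cancel _ (hu _ (hs (by simp [hz])))
  have h2 : Ap z * Ring.inverse (Ap z) = 1 := by
    obtain ⟨U, hU, hs, hd, hu⟩ := hp
    exact Ring.mul_inverse_cancel _ (hu _ (hs (by simp [hz])))
  rw [heq z hz]
  change T z = Ring.inverse (Am z⁻¹) * (Am z⁻¹ * (T z * Ap z)) * Ring.inverse (Ap z)
  rw [← mul_assoc, h1, one_mul, mul_assoc, h2, mul_one]

/-- no function with diagonal entries `z⁻ᵏ, z`, `k < n`, is equivalent to one with chains of
length `n` -/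
theorem not_equivalent_G [CompleteSpace E] {A : ℂ → E →L[ℂ] E} {n : ℕ}
    (hA : ∀ η : ℝ, 0 < η → ∃ φm φp φm' φp' : ℂ → E, IsSection A 0 φm φp ∧
      IsSection A 0 φm' φp' ∧ (∀ z : ℂ, ‖z‖ = 1 → ‖z ^ n • φp z - φp' z‖ ≤ η) ∧ 1 ≤ ‖φp 0‖)
    (d : Dec E) (k : ℤ) (hk : k < n) (V : ℂ → d.H₁ →L[ℂ] d.H₂)
    (hV : ContinuousOn V (sphere 0 1)) : ¬ Equivalent A (G d k V) := by
  obtain ⟨l, hl⟩ : ∃ l : ℕ, (n : ℤ) = k + 1 + l := ⟨(n - k - 1).toNat, by omega⟩
  refine not_equivalent_block d one_pos hA (fun z => z ^ (-k) • ContinuousLinearMap.id ℂ d.H₁)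
    (fun w => w ^ l • ContinuousLinearMap.id ℂ d.H₁) V hV ?_ ?_
  · refine ⟨univ, isOpen_univ, subset_univ _, ?_⟩
    have h1 : (fun w : ℂ => w ^ l • ContinuousLinearMap.id ℂ d.H₁) =
        fun w => ContinuousLinearMap.smulRight (1 : ℂ →L[ℂ] ℂ) (ContinuousLinearMap.id ℂ d.H₁)
          (w ^ l) := by
      funext w
      simp
    rw [h1]
    exact ((ContinuousLinearMap.smulRight (1 : ℂ →L[ℂ] ℂ)
      (ContinuousLinearMap.id ℂ d.H₁)).differentiable.comp (differentiable_id.pow l)).differentiableOn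
  · intro z hz x
    have hz0 := ne_zero_of_norm_one hz
    change z ^ n • (z⁻¹ ^ l • (z ^ (-k) • x)) = z • x
    rw [smul_smul, smul_smul]
    congr 1
    rw [← zpow_natCast z n, ← zpow_natCast z⁻¹ l, inv_zpow', ← zpow_add₀ hz0, ← zpow_add₀ hz0, hl]
    have : k + 1 + (l : ℤ) + -(l : ℤ) + -k = 1 := by ring
    rw [this, zpow_one]

section final

variable {H : Type*} [NormedAddCommGroup H] [InnerProductSpace ℂ H] [CompleteSpace H]

theorem inj_two : Function.Injective (fun m : ℕ => 2 * m) := by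
  intro a b h
  simp only at h
  omega

theorem inj_four : Function.Injective (fun m : ℕ => 4 * m + 1) := by
  intro a b h
  simp only at h
  omega

/-- `H = H₁ ⊕ H₁ᗮ` with `H₁` the closed span of `e₀, e₂, e₄, …` -/
def dd {e : ℕ → H} (he : Orthonormal ℂ e) : Dec H where
  H₁ := LinearMap.range (Us he inj_two).toLinearMap
  H₂ := (LinearMap.range (Us he inj_two).toLinearMap)ᗮ
  closed₁ := (Us he inj_two).isometry.isUniformInducing.isComplete_range.isClosed
  closed₂ := Submodule.isClosed_orthogonal _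
  compl := by
    have hc : CompleteSpace (LinearMap.range (Us he inj_two).toLinearMap) :=
      IsClosed.completeSpace_coe
        (hs := (Us he inj_two).isometry.isUniformInducing.isComplete_range.isClosed)
    exact Submodule.isCompl_orthogonal _

theorem J_mem {e : ℕ → H} (he : Orthonormal ℂ e) (y : K2) : Us he inj_four y ∈ (dd he).H₂ := by
  change _ ∈ (LinearMap.range (Us he inj_two).toLinearMap)ᗮ
  rw [Submodule.mem_orthogonal]
  rintro _ ⟨x, rfl⟩
  exact Us_inner_Us he inj_two inj_four (fun i j => by omega) x y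

/-- the isometry `ℓ²(ℕ) → H₂`, `eₘ ↦ e(4m+1)` -/
def Jc {e : ℕ → H} (he : Orthonormal ℂ e) : K2 →L[ℂ] (dd he).H₂ :=
  (Us he inj_four).toContinuousLinearMap.codRestrict _ (J_mem he)

theorem Jc_coe {e : ℕ → H} (he : Orthonormal ℂ e) (y : K2) :
    ((Jc he y : (dd he).H₂) : H) = Us he inj_four y := rfl

theorem Jc_inj {e : ℕ → H} (he : Orthonormal ℂ e) : Function.Injective (Jc he) := by
  intro x y h
  have := congrArg Subtype.val h
  rw [Jc_coe, Jc_coe] at this
  exact (Us he inj_four).injective this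

theorem Jc_norm {e : ℕ → H} (he : Orthonormal ℂ e) (y : K2) : ‖Jc he y‖ = ‖y‖ :=
  (Us he inj_four).norm_map y

/-- coordinates on `H₁` -/
def Ue {e : ℕ → H} (he : Orthonormal ℂ e) : K2 ≃ₗᵢ[ℂ] (dd he).H₁ :=
  (Us he inj_two).equivRange

/-- the operators `Wⱼ` -/
def Wn {e : ℕ → H} (he : Orthonormal ℂ e) (n : ℕ) (j : Fin n) : (dd he).H₁ →L[ℂ] (dd he).H₂ :=
  Jc he ∘L Tn n j ∘L ((Ue he).symm : (dd he).H₁ →L[ℂ] K2)

theorem Wn_apply {e : ℕ → H} (he : Orthonormal ℂ e) (n : ℕ) (j : Fin n) (x : (dd he).H₁) :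
    Wn he n j x = Jc he (Tn n j ((Ue he).symm x)) := rfl

theorem sum_Wn {e : ℕ → H} (he : Orthonormal ℂ e) (n : ℕ) (y : Fin n → (dd he).H₁) :
    ∑ j, Wn he n j (y j) = Jc he (∑ j : Fin n, Tn n j ((Ue he).symm (y j))) := by
  rw [map_sum]
  rfl

theorem Wn_inj {e : ℕ → H} (he : Orthonormal ℂ e) (n : ℕ) (y : Fin n → (dd he).H₁)
    (h : ∑ j, Wn he n j (y j) = 0) : y = 0 := by
  rw [sum_Wn] at h
  have h1 := Jc_inj he (h.trans (map_zero (Jc he)).symm)
  have h2 := sum_Tn_inj (fun j => (Ue he).symm (y j)) h1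
  funext j
  have h3 := congrFun h2 j
  exact (Ue he).symm.injective (h3.trans (map_zero (Ue he).symm).symm)

theorem RW_eq {e : ℕ → H} (he : Orthonormal ℂ e) {n : ℕ} (hn : 1 ≤ n) :
    RW (dd he) (Wn he n) = RW (dd he) (Wn he 1) := by
  have key : ∀ n : ℕ, 1 ≤ n → ∀ x : (dd he).H₂, x ∈ RW (dd he) (Wn he n) ↔
      ∃ y : K2, Jc he (Tn 1 0 y) = x := by
    intro n hn x
    rw [mem_RW]
    constructor
    · rintro ⟨y, rfl⟩
      rw [sum_Wn]
      obtain ⟨u, hu⟩ := (sum_Tn_range hn _).1 ⟨fun j => (Ue he).symm (y j), rfl⟩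
      exact ⟨u, by rw [hu]⟩
    · rintro ⟨y, rfl⟩
      obtain ⟨u, hu⟩ := (sum_Tn_range hn (Tn 1 0 y)).2 ⟨y, rfl⟩
      refine ⟨fun j => Ue he (u j), ?_⟩
      rw [sum_Wn, ← hu]
      simp
  ext x
  rw [key n hn, key 1 le_rfl]

theorem Wn_small {e : ℕ → H} (he : Orthonormal ℂ e) (n : ℕ) (ε : ℝ) (hε : 0 < ε) :
    ∃ x : (dd he).H₁, ‖x‖ = 1 ∧ ∑ j, ‖Wn he n j x‖ ≤ ε := by
  obtain ⟨m, hm⟩ := exists_nat_one_div_lt (show 0 < ε / (n + 1) by positivity)
  refine ⟨Ue he (lp.single 2 m (1 : ℂ)), ?_, ?_⟩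
  · rw [LinearIsometryEquiv.norm_map, lp.norm_single (by norm_num), norm_one]
  · have h1 : ∀ j : Fin n, ‖Wn he n j (Ue he (lp.single 2 m (1 : ℂ)))‖ ≤ ε / (n + 1) := by
      intro j
      rw [Wn_apply, LinearIsometryEquiv.symm_apply_apply, Jc_norm]
      exact (Tn_single j.2 m).trans hm.le
    calc ∑ j, ‖Wn he n j (Ue he (lp.single 2 m (1 : ℂ)))‖ ≤ ∑ _j : Fin n, ε / (n + 1) :=
          Finset.sum_le_sum (fun j _ => h1 j)
      _ = n * (ε / (n + 1)) := by simp
      _ ≤ ε := by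
          rw [mul_div_assoc', div_le_iff₀ (by positivity)]
          nlinarith

/-- reading off the coordinates `4k + 3` -/
def coordMap {e : ℕ → H} (he : Orthonormal ℂ e) : (dd he).H₂ →ₗ[ℂ] (ℕ → ℂ) where
  toFun x k := inner ℂ (e (4 * k + 3)) (x : H)
  map_add' x y := by
    funext k
    simp
  map_smul' c x := by
    funext k
    simp

theorem coord_mem {e : ℕ → H} (he : Orthonormal ℂ e) (k : ℕ) : e (4 * k + 3) ∈ (dd he).H₂ := by
  change _ ∈ (LinearMap.range (Us he inj_two).toLinearMap)ᗮ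
  rw [Submodule.mem_orthogonal']
  rintro _ ⟨x, rfl⟩
  exact Us_inner_ne he inj_two x (fun i => by omega)

theorem quot_not_fd {e : ℕ → H} (he : Orthonormal ℂ e) (n : ℕ) :
    ¬ FiniteDimensional ℂ ((dd he).H₂ ⧸ RW (dd he) (Wn he n)) := by
  have hker : RW (dd he) (Wn he n) ≤ LinearMap.ker (coordMap he) := by
    intro x hx
    rw [mem_RW] at hx
    obtain ⟨y, rfl⟩ := hx
    rw [LinearMap.mem_ker, sum_Wn]
    funext k
    exact Us_inner_ne he inj_four _ (fun i => by omega)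
  refine not_fd_of_coord (Submodule.liftQ _ (coordMap he) hker)
    (fun k => Submodule.Quotient.mk ⟨e (4 * k + 3), coord_mem he k⟩) ?_
  intro k
  rw [Submodule.liftQ_apply]
  funext m
  change inner ℂ (e (4 * m + 3)) (e (4 * k + 3)) = _
  by_cases h : m = k
  · subst h
    rw [Pi.single_eq_same, inner_self_eq_norm_sq_to_K, he.1]
    simp
  · rw [Pi.single_eq_of_ne h]
    exact he.2 (by omega)

theorem H₁_not_fd {e : ℕ → H} (he : Orthonormal ℂ e) : ¬ FiniteDimensional ℂ (dd he).H₁ := by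
  intro hfd
  have h1 : FiniteDimensional ℂ K2 := Module.Finite.equiv (Ue he).symm.toLinearEquiv
  let L : K2 →ₗ[ℂ] (ℕ → ℂ) :=
    { toFun := fun x n => x n
      map_add' := by intro x y; funext n; rfl
      map_smul' := by intro c x; funext n; rfl }
  refine not_fd_of_coord L (fun n => lp.single 2 n (1 : ℂ)) ?_ h1
  intro n
  funext m
  change (lp.single 2 n (1 : ℂ) : K2) m = _
  by_cases h : m = n
  · subst h
    rw [lp.single_apply_self, Pi.single_eq_same]
  · rw [lp.single_apply_ne _ _ _ h, Pi.single_eq_of_ne h]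

end final

end

end Pool.Agent.Y909.FV
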