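import Pool.Agent.Y909.FV.Base

open Set Metric Filter Topology

namespace Pool.Agent.Y909.FV

noncomputable section

variable {E : Type*} [NormedAddCommGroup E] [NormedSpace ℂ E]

section model

variable [CompleteSpace E] (d : Dec E)

omit [CompleteSpace E] in
theorem Vn_apply {n : ℕ} (W : Fin n → (d.H₁ →L[ℂ] d.H₂)) (z : ℂ) (x : d.H₁) :
    Vn d W z x = ∑ j : Fin n, z⁻¹ ^ (j : ℕ) • W j x := by
  simp [Vn]

/-- constructing sections from their components -/
theorem section_mk {D : ℂ → d.H₁ →L[ℂ] d.H₁} {V : ℂ → d.H₁ →L[ℂ] d.H₂} {κ : ℤ}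
    {f F : ℂ → d.H₁} {g K : ℂ → d.H₂} (hf : HolOn (closedBall 0 1) f)
    (hF : HolOn (closedBall 0 1) F) (hg : HolOn (closedBall 0 1) g)
    (hK : HolOn (closedBall 0 1) K)
    (h1 : ∀ z : ℂ, ‖z‖ = 1 → z ^ κ • F z⁻¹ = D z (f z))
    (h2 : ∀ z : ℂ, ‖z‖ = 1 → z ^ κ • K z⁻¹ = V z (f z) + z • g z) :
    IsSection (fun z => block d (D z) (V z) z) κ (fun w => (F w : E) + (K w : E))
      (fun z => (f z : E) + (g z : E)) := by
  refine ⟨(hF.clm d.H₁.subtypeL).add (hK.clm d.H₂.subtypeL),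
    (hf.clm d.H₁.subtypeL).add (hg.clm d.H₂.subtypeL), ?_⟩
  intro z hz
  have e1 : d.P₁ ((f z : E) + (g z : E)) = f z := by
    rw [map_add, d.P₁_left, d.P₁_right, add_zero]
  have e2 : d.P₂ ((f z : E) + (g z : E)) = g z := by
    rw [map_add, d.P₂_left, d.P₂_right, zero_add]
  simp only
  rw [block_apply, e1, e2, ← h1 z hz, smul_add]
  have e3 : V z (f z) = z ^ κ • K z⁻¹ - z • g z := by
    rw [h2 z hz]; abel
  rw [e3]
  push_cast
  abel

theorem G_zero_section {n : ℕ} {V : ℂ → d.H₁ →L[ℂ] d.H₂} {f F : ℂ → d.H₁} {g K : ℂ → d.H₂}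
    (hf : HolOn (closedBall 0 1) f)
    (hF : HolOn (closedBall 0 1) F) (hg : HolOn (closedBall 0 1) g)
    (hK : HolOn (closedBall 0 1) K)
    (h1 : ∀ z : ℂ, ‖z‖ = 1 → F z⁻¹ = z⁻¹ ^ n • f z)
    (h2 : ∀ z : ℂ, ‖z‖ = 1 → K z⁻¹ = V z (f z) + z • g z) :
    IsSection (G d n V) 0 (fun w => (F w : E) + (K w : E))
      (fun z => (f z : E) + (g z : E)) := by
  refine section_mk d hf hF hg hK ?_ ?_
  · intro z hz
    rw [zpow_zero, one_smul, h1 z hz, zpow_neg, zpow_natCast, inv_pow]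
    rfl
  · intro z hz
    rw [zpow_zero, one_smul, h2 z hz]

/-- the total operator `(y₀, …, yₙ₋₁) ↦ W₀ y₀ + ⋯ + Wₙ₋₁ yₙ₋₁` has this range -/
def RW {n : ℕ} (W : Fin n → (d.H₁ →L[ℂ] d.H₂)) : Submodule ℂ d.H₂ :=
  LinearMap.range (∑ j : Fin n, (W j : d.H₁ →ₗ[ℂ] d.H₂) ∘ₗ LinearMap.proj j)

omit [CompleteSpace E] in
theorem mem_RW {n : ℕ} (W : Fin n → (d.H₁ →L[ℂ] d.H₂)) (x : d.H₂) :
    x ∈ RW d W ↔ ∃ y : Fin n → d.H₁, ∑ j, W j (y j) = x := by
  simp [RW, LinearMap.mem_range, LinearMap.sum_apply]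

/-- the subspace `H₁ ⊕ R` -/
def plus (R : Submodule ℂ d.H₂) : Submodule ℂ E := R.comap (d.P₂ : E →ₗ[ℂ] d.H₂)

theorem mem_plus (R : Submodule ℂ d.H₂) (x : E) : x ∈ plus d R ↔ d.P₂ x ∈ R := Iff.rfl

/-- the values of `0`-sections lie in `H₁ ⊕ Σ Im Wⱼ` -/
theorem zero_section_mem {n : ℕ} {W : Fin n → (d.H₁ →L[ℂ] d.H₂)} {φm φp : ℂ → E}
    (hs : IsSection (G d n (Vn d W)) 0 φm φp) {z : ℂ} (hz : ‖z‖ ≤ 1) :
    φp z ∈ plus d (RW d W) ∧ φm z ∈ plus d (RW d W) := by
  have hm := hs.1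
  have hp := hs.2.1
  have hf := hp.clm d.P₁
  have hg := hp.clm d.P₂
  have hK := hm.clm d.P₂
  set f : ℂ → d.H₁ := fun z => d.P₁ (φp z) with hfdef
  set g : ℂ → d.H₂ := fun z => d.P₂ (φp z) with hgdef
  set K : ℂ → d.H₂ := fun z => d.P₂ (φm z) with hKdef
  set x : ℕ → d.H₁ := fun i => dI f i 0 with hx
  have hS1 : HolOn (closedBall 0 1) (fun z => ∑ j : Fin n, W j (dI f (j + 1) z)) := by
    have : ∀ s : Finset (Fin n), HolOn (closedBall 0 1) (fun z => ∑ j ∈ s, W j (dI f (j + 1) z)) := by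
      intro s
      induction s using Finset.induction_on with
      | empty => simp only [Finset.sum_empty]; exact hol_const _
      | insert a s ha ih =>
        simp only [Finset.sum_insert ha]
        exact ((dI_hol hf _).clm (W a)).add ih
    exact this Finset.univ
  have hS2 : HolOn (closedBall 0 1) (fun w => ∑ j : Fin n, W j (Rr x j w)) := by
    refine HolOn.of_differentiable ?_
    refine Differentiable.fun_sum (fun j _ => ?_)
    exact (W j).differentiable.comp (Rr_diff x j)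
  have key := liouville_glue
    (q := fun z => z • (∑ j : Fin n, W j (dI f (j + 1) z) + g z))
    (r := fun w => K w - ∑ j : Fin n, W j (Rr x j w))
    (hol_id.smul (hS1.add hg)) (hK.sub hS2) (by
      intro z hz
      have hz0 := ne_zero_of_norm_one hz
      have h2 := (section_eq d hs hz).2
      rw [zpow_zero, one_smul, Vn_apply] at h2
      have h3 : ∑ j : Fin n, z⁻¹ ^ (j : ℕ) • W j (f z) =
          z • ∑ j : Fin n, W j (dI f (j + 1) z) + ∑ j : Fin n, W j (Rr x j z⁻¹) := by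
        rw [Finset.smul_sum, ← Finset.sum_add_distrib]
        refine Finset.sum_congr rfl (fun j _ => ?_)
        rw [← map_smul, dI_split f j hz0, map_add, map_smul]
      change z • (_ + g z) = K z⁻¹ - _
      change K z⁻¹ = _ + z • g z at h2
      rw [h2, h3, smul_add]
      abel)
  have k0 : K 0 - ∑ j : Fin n, W j (Rr x j 0) = 0 := by
    have := (key 0 (by simp)).1
    rw [zero_smul] at this
    exact this.symm
  have k1 : ∀ z : ℂ, ‖z‖ ≤ 1 → ∑ j : Fin n, W j (dI f (j + 1) z) + g z = 0 := by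
    refine cancel_z (hS1.add hg) (hol_const _) ?_
    intro z hz
    rw [(key z hz).1, k0, smul_zero]
  have k2 : ∀ z : ℂ, ‖z‖ ≤ 1 → K z = ∑ j : Fin n, W j (Rr x j z) := by
    intro z hz
    have := (key z hz).2
    rw [k0] at this
    exact sub_eq_zero.1 this
  constructor
  · rw [mem_plus, mem_RW]
    refine ⟨fun j => - dI f (j + 1) z, ?_⟩
    simp only [map_neg, Finset.sum_neg_distrib]
    exact neg_eq_of_add_eq_zero_right (k1 z hz)
  · rw [mem_plus, mem_RW]
    exact ⟨fun j => Rr x j z, (k2 z hz).symm⟩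

/-- sections of negative order vanish -/
theorem neg_section_zero {n : ℕ} {W : Fin n → (d.H₁ →L[ℂ] d.H₂)}
    (hW : ∀ y : Fin n → d.H₁, ∑ j, W j (y j) = 0 → y = 0) {κ : ℤ} (hκ : κ < 0)
    {φm φp : ℂ → E} (hs : IsSection (G d n (Vn d W)) κ φm φp) {z : ℂ} (hz : ‖z‖ ≤ 1) :
    φp z = 0 ∧ φm z = 0 := by
  obtain ⟨m, rfl⟩ : ∃ m : ℕ, κ = -((m : ℤ) + 1) := ⟨(-κ - 1).toNat, by omega⟩
  have hm := hs.1
  have hp := hs.2.1
  have hf := hp.clm d.P₁
  have hg := hp.clm d.P₂
  have hm' : HolOn (closedBall 0 1) (fun w => w ^ m • φm w) := (hol_pow m).smul hm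
  have hF := hm'.clm d.P₁
  have hK := hm'.clm d.P₂
  set f : ℂ → d.H₁ := fun z => d.P₁ (φp z) with hfdef
  set g : ℂ → d.H₂ := fun z => d.P₂ (φp z) with hgdef
  set F : ℂ → d.H₁ := fun z => d.P₁ (z ^ m • φm z) with hFdef
  set K : ℂ → d.H₂ := fun z => d.P₂ (z ^ m • φm z) with hKdef
  set x : ℕ → d.H₁ := fun i => dI f i 0 with hx
  have eq1 : ∀ z : ℂ, ‖z‖ = 1 → z⁻¹ • F z⁻¹ = z⁻¹ ^ n • f z := by
    intro z hz
    have h1 := (section_eq d hs hz).1
    have h3 : z⁻¹ • F z⁻¹ = z ^ (-((m : ℤ) + 1)) • d.P₁ (φm z⁻¹) := by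
      rw [hFdef]
      simp only [map_smul]
      rw [smul_smul, ← pow_succ', zpow_neg, inv_pow]
      norm_cast
    rw [h3, h1, zpow_neg, zpow_natCast, inv_pow]
    rfl
  have eq2 : ∀ z : ℂ, ‖z‖ = 1 → z⁻¹ • K z⁻¹ =
      ∑ j : Fin n, z⁻¹ ^ (j : ℕ) • W j (f z) + z • g z := by
    intro z hz
    have h1 := (section_eq d hs hz).2
    have h3 : z⁻¹ • K z⁻¹ = z ^ (-((m : ℤ) + 1)) • d.P₂ (φm z⁻¹) := by
      rw [hKdef]
      simp only [map_smul]
      rw [smul_smul, ← pow_succ', zpow_neg, inv_pow]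
      norm_cast
    rw [h3, h1, Vn_apply]
  have hS1 : HolOn (closedBall 0 1) (fun z => ∑ j : Fin n, W j (dI f (j + 1) z)) := by
    have : ∀ s : Finset (Fin n), HolOn (closedBall 0 1) (fun z => ∑ j ∈ s, W j (dI f (j + 1) z)) := by
      intro s
      induction s using Finset.induction_on with
      | empty => simp only [Finset.sum_empty]; exact hol_const _
      | insert a s ha ih =>
        simp only [Finset.sum_insert ha]
        exact ((dI_hol hf _).clm (W a)).add ih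
    exact this Finset.univ
  have hS2 : HolOn (closedBall 0 1) (fun w => ∑ j : Fin n, W j (Rr x j w)) := by
    refine HolOn.of_differentiable ?_
    refine Differentiable.fun_sum (fun j _ => ?_)
    exact (W j).differentiable.comp (Rr_diff x j)
  have key := liouville_glue
    (q := fun z => z • (∑ j : Fin n, W j (dI f (j + 1) z) + g z))
    (r := fun w => w • K w - ∑ j : Fin n, W j (Rr x j w))
    (hol_id.smul (hS1.add hg)) ((hol_id.smul hK).sub hS2) (by
      intro z hz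
      have hz0 := ne_zero_of_norm_one hz
      have h2 := eq2 z hz
      have h3 : ∑ j : Fin n, z⁻¹ ^ (j : ℕ) • W j (f z) =
          z • ∑ j : Fin n, W j (dI f (j + 1) z) + ∑ j : Fin n, W j (Rr x j z⁻¹) := by
        rw [Finset.smul_sum, ← Finset.sum_add_distrib]
        refine Finset.sum_congr rfl (fun j _ => ?_)
        rw [← map_smul, dI_split f j hz0, map_add, map_smul]
      change z • (_ + g z) = z⁻¹ • K z⁻¹ - _
      rw [h2, h3, smul_add]
      abel)
  have k0 : ∑ j : Fin n, W j (Rr x j 0) = 0 := by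
    have h1 := (key 0 (by simp)).1
    rw [zero_smul, zero_smul, zero_sub] at h1
    exact neg_eq_zero.1 h1.symm
  have hx0 : ∀ j < n, dI f j 0 = 0 := by
    have h1 := hW (fun j => Rr x j 0) k0
    intro j hj
    have h2 := congrFun h1 ⟨j, hj⟩
    simp only [Rr_zero, Pi.zero_apply] at h2
    exact h2
  have hfac := dI_factor f n hx0
  have key2 := liouville_glue (q := dI f n) (r := fun w => w • F w) (dI_hol hf n)
    (hol_id.smul hF) (by
      intro z hz
      have hz0 := ne_zero_of_norm_one hz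
      change dI f n z = z⁻¹ • F z⁻¹
      rw [eq1 z hz, hfac z, smul_smul, ← mul_pow, inv_mul_cancel₀ hz0, one_pow, one_smul])
  simp only [zero_smul] at key2
  have f0 : ∀ z : ℂ, ‖z‖ ≤ 1 → f z = 0 := by
    intro z hz
    rw [hfac z, (key2 z hz).1, smul_zero]
  have key3 := liouville_glue (q := fun z => z • g z) (r := fun w => w • K w) (hol_id.smul hg)
    (hol_id.smul hK) (by
      intro z hz
      have := eq2 z hz
      rw [f0 z hz.le] at this
      simp only [map_zero, smul_zero, Finset.sum_const_zero, zero_add] at this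
      exact this.symm)
  simp only [zero_smul] at key3
  have g0 : ∀ z : ℂ, ‖z‖ ≤ 1 → g z = 0 := by
    refine cancel_z hg (hol_const _) ?_
    intro z hz
    rw [(key3 z hz).1, smul_zero]
  have p0 : ∀ z : ℂ, ‖z‖ ≤ 1 → φp z = 0 := by
    intro z hz
    rw [← d.add_eq (φp z)]
    have h1 : d.P₁ (φp z) = 0 := f0 z hz
    have h2 : d.P₂ (φp z) = 0 := g0 z hz
    rw [h1, h2]
    simp
  have key4 := liouville_glue (q := fun _ => (0 : E)) (r := φm) (hol_const _) hm (by
    intro z hz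
    have := hs.2.2 z hz
    rw [p0 z hz.le, map_zero] at this
    exact ((smul_eq_zero.1 this).resolve_left (zpow_ne_zero _ (ne_zero_of_norm_one hz))).symm)
  refine ⟨p0 z hz, ?_⟩
  rw [(key4 z hz).2, ← (key4 z hz).1]

end model

section indices

variable [CompleteSpace E] (d : Dec E)

omit [CompleteSpace E] in
theorem hol_sum_pow {n : ℕ} (W : Fin n → (d.H₁ →L[ℂ] d.H₂)) (x : d.H₁) (e : ℕ → ℕ) :
    Differentiable ℂ (fun w : ℂ => ∑ j : Fin n, w ^ e j • W j x) := by
  fun_prop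

/-- `1`-sections with `φ₊` constant -/
theorem one_section_p {n : ℕ} (W : Fin n → (d.H₁ →L[ℂ] d.H₂)) (x : E) :
    ∃ φm : ℂ → E, IsSection (G d n (Vn d W)) 1 φm (fun _ => x) := by
  have h := section_mk d (D := fun z => z ^ (-(n : ℤ)) • ContinuousLinearMap.id ℂ d.H₁)
    (V := Vn d W) (κ := 1) (f := fun _ => d.P₁ x) (F := fun w => w ^ (n + 1) • d.P₁ x)
    (g := fun _ => d.P₂ x)
    (K := fun w => (∑ j : Fin n, w ^ ((j : ℕ) + 1) • W j (d.P₁ x)) + d.P₂ x)
    (hol_const _) (HolOn.of_differentiable (by fun_prop)) (hol_const _)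
    (HolOn.of_differentiable ((hol_sum_pow d W _ (fun j => j + 1)).add (differentiable_const _)))
    (by
      intro z hz
      have hz0 := ne_zero_of_norm_one hz
      rw [zpow_one, smul_smul, pow_succ', ← mul_assoc, mul_inv_cancel₀ hz0, one_mul, zpow_neg,
        zpow_natCast, inv_pow]
      rfl) (by
      intro z hz
      have hz0 := ne_zero_of_norm_one hz
      rw [zpow_one, Vn_apply, smul_add, Finset.smul_sum]
      congr 1
      refine Finset.sum_congr rfl (fun j _ => ?_)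
      rw [smul_smul, pow_succ', ← mul_assoc, mul_inv_cancel₀ hz0, one_mul])
  have e : (fun _ : ℂ => x) = fun _ : ℂ => ((d.P₁ x : E) + (d.P₂ x : E)) := by
    funext _
    exact (d.add_eq x).symm
  rw [e]
  exact ⟨_, h⟩

/-- `1`-sections with `φ₋` constant -/
theorem one_section_m {n : ℕ} (W : Fin n → (d.H₁ →L[ℂ] d.H₂)) (x : E) :
    ∃ φp : ℂ → E, IsSection (G d n (Vn d W)) 1 (fun _ => x) φp := by
  have h := section_mk d (D := fun z => z ^ (-(n : ℤ)) • ContinuousLinearMap.id ℂ d.H₁)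
    (V := Vn d W) (κ := 1) (F := fun _ => d.P₁ x) (f := fun z => z ^ (n + 1) • d.P₁ x)
    (K := fun _ => d.P₂ x)
    (g := fun z => d.P₂ x - (∑ j : Fin n, z ^ (n - (j : ℕ)) • W j (d.P₁ x)))
    (HolOn.of_differentiable (by fun_prop)) (hol_const _)
    (HolOn.of_differentiable ((differentiable_const _).sub (hol_sum_pow d W _ (fun j => n - j))))
    (hol_const _)
    (by
      intro z hz
      have hz0 := ne_zero_of_norm_one hz
      change z ^ (1 : ℤ) • d.P₁ x = z ^ (-(n : ℤ)) • (z ^ (n + 1) • d.P₁ x)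
      rw [zpow_one, smul_smul, zpow_neg, zpow_natCast, pow_succ, ← mul_assoc,
        inv_mul_cancel₀ (pow_ne_zero _ hz0), one_mul]) (by
      intro z hz
      have hz0 := ne_zero_of_norm_one hz
      rw [zpow_one, Vn_apply, smul_sub, Finset.smul_sum]
      have : ∀ j : Fin n, z⁻¹ ^ (j : ℕ) • W j (z ^ (n + 1) • d.P₁ x) =
          z • (z ^ (n - (j : ℕ)) • W j (d.P₁ x)) := by
        intro j
        rw [map_smul, smul_smul, smul_smul]
        congr 1
        have hj : n + 1 = (j : ℕ) + (1 + (n - (j : ℕ))) := by omega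
        rw [hj, pow_add, ← mul_assoc, ← mul_pow, inv_mul_cancel₀ hz0, one_pow, one_mul, pow_add,
          pow_one]
      rw [Finset.sum_congr rfl (fun j _ => this j)]
      abel)
  have e : (fun _ : ℂ => x) = fun _ : ℂ => ((d.P₁ x : E) + (d.P₂ x : E)) := by
    funext _
    exact (d.add_eq x).symm
  rw [e]
  exact ⟨_, h⟩

/-- the general `0`-section -/
theorem zero_section {n : ℕ} (W : Fin n → (d.H₁ →L[ℂ] d.H₂)) (x : ℕ → d.H₁) :
    IsSection (G d n (Vn d W)) 0
      (fun w => ((Rr x n w : d.H₁) : E) + ((∑ j : Fin n, W j (Rr x j w) : d.H₂) : E))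
      (fun z => ((Ss x n 0 z : d.H₁) : E) +
        ((-∑ j : Fin n, W j (Ss x n (j + 1) z) : d.H₂) : E)) := by
  refine G_zero_section d (f := Ss x n 0) (F := Rr x n)
    (g := fun z => -∑ j : Fin n, W j (Ss x n (j + 1) z)) (K := fun w => ∑ j : Fin n, W j (Rr x j w))
    (HolOn.of_differentiable (Ss_diff x n 0)) (HolOn.of_differentiable (Rr_diff x n))
    (HolOn.of_differentiable ?_) (HolOn.of_differentiable ?_) ?_ ?_
  · exact (Differentiable.fun_sum (fun j _ => (W j).differentiable.comp (Ss_diff x n _))).neg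
  · exact Differentiable.fun_sum (fun j _ => (W j).differentiable.comp (Rr_diff x _))
  · intro z hz
    rw [Ss_split x n n le_rfl (ne_zero_of_norm_one hz), Ss_end, smul_zero, zero_add]
  · intro z hz
    rw [Vn_apply, smul_neg, Finset.smul_sum, ← sub_eq_add_neg, ← Finset.sum_sub_distrib]
    refine Finset.sum_congr rfl (fun j _ => ?_)
    rw [← map_smul, ← map_smul, ← map_sub, Ss_split x n j j.2.le (ne_zero_of_norm_one hz),
      add_sub_cancel_left]

theorem kappa_zero {n : ℕ} (W : Fin n → (d.H₁ →L[ℂ] d.H₂)) (x : E) (z : OnePoint ℂ) :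
    (0 : ℤ) ∈ kappaSet (G d n (Vn d W)) x z ↔ x ∈ plus d (RW d W) := by
  constructor
  · rintro ⟨φm, φp, hs, hv⟩
    rcases sectionValue_or (E := E) z with ⟨t, ht, hf⟩ | ⟨t, ht, hf⟩
    · rw [hf] at hv
      rw [← hv]
      exact (zero_section_mem d hs ht).1
    · rw [hf] at hv
      rw [← hv]
      exact (zero_section_mem d hs ht).2
  · intro hx
    rw [mem_plus, mem_RW] at hx
    obtain ⟨y, hy⟩ := hx
    rcases sectionValue_or (E := E) z with ⟨t, ht, hf⟩ | ⟨t, ht, hf⟩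
    · set c : ℕ → d.H₁ := fun i => Nat.casesOn i (d.P₁ x) (fun m => if h : m < n then -y ⟨m, h⟩ else 0)
        with hc
      refine ⟨_, _, zero_section d W (fun i => c i - t • c (i + 1)), ?_⟩
      rw [hf]
      have hend : c (n + 1) = 0 := by simp [hc]
      rw [Ss_values c n hend t (Nat.zero_le _)]
      have h2 : ∀ j : Fin n, Ss (fun i => c i - t • c (i + 1)) n (j + 1) t = - y j := by
        intro j
        rw [Ss_values c n hend t (by omega)]
        simp [hc]
      rw [Finset.sum_congr rfl (fun j _ => by rw [h2 j, map_neg]), Finset.sum_neg_distrib, neg_neg,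
        hy]
      exact d.add_eq x
    · set c : ℕ → d.H₁ := fun i => if h : i < n then y ⟨i, h⟩ else d.P₁ x with hc
      refine ⟨_, _, zero_section d W
        (fun i => Nat.casesOn i (c 0) (fun m => c (m + 1) - t • c m)), ?_⟩
      rw [hf, Rr_values c t n]
      have h2 : ∀ j : Fin n, Rr (fun i => Nat.casesOn i (c 0) (fun m => c (m + 1) - t • c m)) j t =
          y j := by
        intro j
        rw [Rr_values c t j]
        simp [hc]
      rw [Finset.sum_congr rfl (fun j _ => by rw [h2 j]), hy]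
      have h3 : c n = d.P₁ x := by simp [hc]
      rw [h3]
      exact d.add_eq x

theorem kappa_one {n : ℕ} (W : Fin n → (d.H₁ →L[ℂ] d.H₂)) (x : E) (z : OnePoint ℂ) :
    (1 : ℤ) ∈ kappaSet (G d n (Vn d W)) x z := by
  rcases sectionValue_or (E := E) z with ⟨a, ha, hf⟩ | ⟨a, ha, hf⟩
  · obtain ⟨φm, hm⟩ := one_section_p d W x
    exact ⟨_, _, hm, by rw [hf]⟩
  · obtain ⟨φp, hp⟩ := one_section_m d W x
    exact ⟨_, _, hp, by rw [hf]⟩

theorem kappa_nonneg {n : ℕ} {W : Fin n → (d.H₁ →L[ℂ] d.H₂)}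
    (hW : ∀ y : Fin n → d.H₁, ∑ j, W j (y j) = 0 → y = 0)
    (x : E) (z : OnePoint ℂ) (hx : x ≠ 0) (κ : ℤ) (hκ : κ ∈ kappaSet (G d n (Vn d W)) x z) :
    0 ≤ κ := by
  by_contra hneg
  push Not at hneg
  obtain ⟨φm, φp, hs, hv⟩ := hκ
  rcases sectionValue_or (E := E) z with ⟨a, ha, hf⟩ | ⟨a, ha, hf⟩
  · rw [hf] at hv
    exact hx (hv ▸ (neg_section_zero d hW hneg hs ha).1)
  · rw [hf] at hv
    exact hx (hv ▸ (neg_section_zero d hW hneg hs ha).2)

theorem plus_not_fd (hH : ¬ FiniteDimensional ℂ d.H₁) (R : Submodule ℂ d.H₂) :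
    ¬ FiniteDimensional ℂ (plus d R) := by
  intro hfd
  apply hH
  let L : d.H₁ →ₗ[ℂ] plus d R := LinearMap.codRestrict _ d.H₁.subtype (by
    intro c
    rw [mem_plus]
    change d.P₂ (c : E) ∈ R
    rw [d.P₂_left]
    exact R.zero_mem)
  have hL : Function.Injective L := by
    intro x y hxy
    have h1 : (L x : E) = (L y : E) := by rw [hxy]
    exact Subtype.ext h1
  exact Module.Finite.of_injective L hL

theorem plus_quot_not_fd (R : Submodule ℂ d.H₂) (hR : ¬ FiniteDimensional ℂ (d.H₂ ⧸ R)) :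
    ¬ FiniteDimensional ℂ (E ⧸ plus d R) := by
  intro hfd
  apply hR
  let L : E →ₗ[ℂ] (d.H₂ ⧸ R) := R.mkQ ∘ₗ (d.P₂ : E →ₗ[ℂ] d.H₂)
  have hker : plus d R ≤ LinearMap.ker L := by
    intro x hx
    rw [LinearMap.mem_ker]
    change (Submodule.Quotient.mk (d.P₂ x) : d.H₂ ⧸ R) = 0
    rw [Submodule.Quotient.mk_eq_zero]
    exact hx
  refine Module.Finite.of_surjective (Submodule.liftQ _ L hker) ?_
  intro y
  obtain ⟨y, rfl⟩ := Submodule.Quotient.mk_surjective _ y
  refine ⟨Submodule.Quotient.mk (y : E), ?_⟩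
  rw [Submodule.liftQ_apply]
  change (Submodule.Quotient.mk (d.P₂ (y : E)) : d.H₂ ⧸ R) = _
  rw [d.P₂_right]

theorem indices_G {n : ℕ} {W : Fin n → (d.H₁ →L[ℂ] d.H₂)}
    (hW : ∀ y : Fin n → d.H₁, ∑ j, W j (y j) = 0 → y = 0)
    (hH : ¬ FiniteDimensional ℂ d.H₁) (hR : ¬ FiniteDimensional ℂ (d.H₂ ⧸ RW d W)) :
    HasIndicesZeroOne (G d n (Vn d W)) :=
  hasIndices_of (S := plus d (RW d W)) (fun x z hx κ hκ => kappa_nonneg d hW x z hx κ hκ)
    (fun x z => kappa_one d W x z) (fun x z => kappa_zero d W x z) (plus_not_fd d hH _)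
    (plus_quot_not_fd d _ hR)

theorem mset_G {n : ℕ} {W : Fin n → (d.H₁ →L[ℂ] d.H₂)}
    (hW : ∀ y : Fin n → d.H₁, ∑ j, W j (y j) = 0 → y = 0) (z : OnePoint ℂ) :
    MSet (G d n (Vn d W)) 0 z = plus d (RW d W) := by
  ext x
  simp only [MSet, mem_ofPred_eq, SetLike.mem_coe]
  constructor
  · rintro (rfl | ⟨j, hj, hl⟩)
    · exact Submodule.zero_mem _
    · by_cases hx0 : x = 0
      · rw [hx0]; exact Submodule.zero_mem _
      · have h0 := kappa_nonneg d hW x z hx0 j hl.1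
        have h1 : j = 0 := le_antisymm hj h0
        rw [← kappa_zero d W x z, ← h1]
        exact hl.1
  · intro hx
    by_cases hx0 : x = 0
    · exact Or.inl hx0
    · exact Or.inr ⟨0, le_rfl, (kappa_zero d W x z).2 hx,
        fun κ hκ => kappa_nonneg d hW x z hx0 κ hκ⟩

/-- invertibility of the block operators -/
theorem isUnit_block {D D' : d.H₁ →L[ℂ] d.H₁} (h1 : ∀ x, D (D' x) = x) (h2 : ∀ x, D' (D x) = x)
    (V : d.H₁ →L[ℂ] d.H₂) {z : ℂ} (hz : z ≠ 0) : IsUnit (block d D V z) := by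
  have ext' : ∀ x y : E, d.P₁ x = d.P₁ y → d.P₂ x = d.P₂ y → x = y := by
    intro x y e1 e2
    rw [← d.add_eq x, ← d.add_eq y, e1, e2]
  refine ⟨⟨block d D V z, block d D' (-(z⁻¹ • (V ∘L D'))) z⁻¹, ?_, ?_⟩, rfl⟩
  · ext x
    change block d D V z (block d D' (-(z⁻¹ • (V ∘L D'))) z⁻¹ x) = x
    refine ext' _ _ ?_ ?_
    · rw [P₁_block, P₁_block, h1]
    · rw [P₂_block, P₁_block, P₂_block]
      simp [smul_smul, hz]
  · ext x
    change block d D' (-(z⁻¹ • (V ∘L D'))) z⁻¹ (block d D V z x) = x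
    refine ext' _ _ ?_ ?_
    · rw [P₁_block, P₁_block, h2]
    · rw [P₂_block, P₁_block, P₂_block]
      simp [smul_smul, hz, h2]

theorem holGL_G {n : ℕ} (W : Fin n → (d.H₁ →L[ℂ] d.H₂)) :
    HolGL (sphere 0 1) (G d n (Vn d W)) := by
  refine ⟨{0}ᶜ, isOpen_compl_singleton, ?_, ?_, ?_⟩
  · intro z hz h0
    rw [mem_singleton_iff] at h0
    simp [h0] at hz
  · intro z hz
    refine DifferentiableAt.differentiableWithinAt ?_
    have hz' : z ≠ 0 := hz
    have h0 : DifferentiableAt ℂ (fun z : ℂ => z ^ (-(n : ℤ))) z :=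
      differentiableAt_zpow.2 (Or.inl hz')
    have h1 : G d n (Vn d W) = fun z => z ^ (-(n : ℤ)) • (d.H₁.subtypeL ∘L d.P₁) +
        (∑ j : Fin n, z⁻¹ ^ (j : ℕ) • (d.H₂.subtypeL ∘L W j ∘L d.P₁)) +
        z • (d.H₂.subtypeL ∘L d.P₂) := by
      funext z
      ext x
      simp [G, block, Vn]
    rw [h1]
    refine DifferentiableAt.add (DifferentiableAt.add ?_ ?_) ?_
    · exact h0.smul_const _
    · fun_prop (disch := assumption)
    · exact differentiableAt_id.smul_const _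
  · intro z hz
    have hz' : z ≠ 0 := hz
    refine isUnit_block d (D' := z ^ n • ContinuousLinearMap.id ℂ d.H₁) ?_ ?_ _ hz'
    · intro x
      simp [smul_smul, hz']
    · intro x
      simp [smul_smul, hz']

/-- the almost invariant chains -/
theorem chains_G {n : ℕ} {W : Fin n → (d.H₁ →L[ℂ] d.H₂)}
    (hsm : ∀ ε : ℝ, 0 < ε → ∃ e : d.H₁, ‖e‖ = 1 ∧ ∑ j, ‖W j e‖ ≤ ε) (η : ℝ) (hη : 0 < η) :
    ∃ φm φp φm' φp' : ℂ → E, IsSection (G d n (Vn d W)) 0 φm φp ∧
      IsSection (G d n (Vn d W)) 0 φm' φp' ∧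
      (∀ z : ℂ, ‖z‖ = 1 → ‖z ^ n • φp z - φp' z‖ ≤ η) ∧ 1 ≤ ‖φp 0‖ := by
  obtain ⟨e, he, hes⟩ := hsm η hη
  have s1 := G_zero_section d (n := n) (V := Vn d W) (f := fun _ => e) (F := fun w => w ^ n • e)
    (g := fun _ => 0) (K := fun w => ∑ j : Fin n, w ^ (j : ℕ) • W j e) (hol_const _)
    (HolOn.of_differentiable (by fun_prop)) (hol_const _)
    (HolOn.of_differentiable (hol_sum_pow d W e (fun j => j)))
    (fun z hz => rfl) (fun z hz => by rw [Vn_apply, smul_zero, add_zero])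
  have s2 := G_zero_section d (n := n) (V := Vn d W) (f := fun z => z ^ n • e) (F := fun _ => e)
    (g := fun z => -∑ j : Fin n, z ^ (n - 1 - (j : ℕ)) • W j e) (K := fun _ => 0)
    (HolOn.of_differentiable (by fun_prop)) (hol_const _)
    (HolOn.of_differentiable (hol_sum_pow d W e (fun j => n - 1 - j)).neg) (hol_const _)
    (fun z hz => by
      rw [smul_smul, ← mul_pow, inv_mul_cancel₀ (ne_zero_of_norm_one hz), one_pow, one_smul])
    (fun z hz => by
      have hz0 := ne_zero_of_norm_one hz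
      rw [Vn_apply, smul_neg, Finset.smul_sum, ← sub_eq_add_neg, ← Finset.sum_sub_distrib]
      symm
      refine Finset.sum_eq_zero (fun j _ => ?_)
      rw [map_smul, smul_smul, smul_smul, ← sub_smul]
      have hj : (j : ℕ) + (1 + (n - 1 - (j : ℕ))) = n := by omega
      have : z⁻¹ ^ (j : ℕ) * z ^ n = z * z ^ (n - 1 - (j : ℕ)) := by
        calc z⁻¹ ^ (j : ℕ) * z ^ n = z⁻¹ ^ (j : ℕ) * z ^ ((j : ℕ) + (1 + (n - 1 - (j : ℕ)))) := by
              rw [hj]
          _ = z * z ^ (n - 1 - (j : ℕ)) := by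
              rw [pow_add, ← mul_assoc, ← mul_pow, inv_mul_cancel₀ hz0, one_pow, one_mul, pow_add,
                pow_one]
      rw [this, sub_self, zero_smul])
  refine ⟨_, _, _, _, s1, s2, ?_, ?_⟩
  · intro z hz
    have h1 : z ^ n • ((e : E) + ((0 : d.H₂) : E)) - (((z ^ n • e : d.H₁) : E) +
        ((-∑ j : Fin n, z ^ (n - 1 - (j : ℕ)) • W j e : d.H₂) : E)) =
        ((∑ j : Fin n, z ^ (n - 1 - (j : ℕ)) • W j e : d.H₂) : E) := by
      push_cast
      rw [add_zero]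
      abel
    rw [h1]
    have h2 : ‖∑ j : Fin n, z ^ (n - 1 - (j : ℕ)) • W j e‖ ≤ ∑ j, ‖W j e‖ := by
      refine (norm_sum_le _ _).trans (le_of_eq ?_)
      refine Finset.sum_congr rfl (fun j _ => ?_)
      rw [norm_smul, norm_pow, hz, one_pow, one_mul]
    exact h2.trans hes
  · have : ‖(e : E)‖ = 1 := he
    simp [this]

end indices

end

end Pool.Agent.Y909.FV
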